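import Mathlib

set_option autoImplicit false

namespace Pool.Agent.Helper642.FreeResP

/-- Valid syllable lists. -/
def Valid {α : Type} (L : List (α × ℤ)) : Prop :=
  (∀ s ∈ L, s.2 ≠ 0) ∧ L.IsChain (fun s t => s.1 ≠ t.1)

/-- Evaluation of a syllable list. -/
def ev {α : Type} (L : List (α × ℤ)) : FreeGroup α :=
  (L.map (fun s => FreeGroup.of s.1 ^ s.2)).prod

theorem syl_cons {α : Type} [DecidableEq α] (L : List (α × ℤ)) (hL : Valid L) (a : α) (e : ℤ)
    (he : e ≠ 0) : ∃ L', Valid L' ∧ ev L' = FreeGroup.of a ^ e * ev L := by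
  cases L with
  | nil =>
    refine ⟨[(a, e)], ⟨by simpa using he, by simp⟩, by simp [ev]⟩
  | cons s L2 =>
    obtain ⟨c, f⟩ := s
    obtain ⟨h1, h2⟩ := hL
    by_cases hc : c = a
    · subst hc
      have hL2 : Valid L2 := ⟨fun s hs => h1 s (List.mem_cons_of_mem _ hs), h2.tail⟩
      by_cases hs : e + f = 0
      · refine ⟨L2, hL2, ?_⟩
        simp only [ev, List.map_cons, List.prod_cons]
        rw [← mul_assoc, ← zpow_add, hs, zpow_zero, one_mul]
      · refine ⟨(c, e + f) :: L2, ⟨?_, ?_⟩, ?_⟩
        · intro s hs'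
          rcases List.mem_cons.1 hs' with rfl | h
          · exact hs
          · exact h1 s (List.mem_cons_of_mem _ h)
        · cases L2 with
          | nil => simp
          | cons t L3 =>
            rw [List.isChain_cons_cons] at h2 ⊢
            exact ⟨h2.1, h2.2⟩
        · simp only [ev, List.map_cons, List.prod_cons]
          rw [zpow_add, mul_assoc]
    · refine ⟨(a, e) :: (c, f) :: L2, ⟨?_, ?_⟩, ?_⟩
      · intro s hs'
        rcases List.mem_cons.1 hs' with rfl | h
        · exact he
        · exact h1 s h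
      · rw [List.isChain_cons_cons]
        exact ⟨fun h => hc h.symm, h2⟩
      · simp only [ev, List.map_cons, List.prod_cons]

theorem exists_syl {α : Type} [DecidableEq α] (x : FreeGroup α) : ∃ L, Valid L ∧ ev L = x := by
  obtain ⟨w, rfl⟩ := Quot.exists_rep x
  change ∃ L, Valid L ∧ ev L = FreeGroup.mk w
  induction w with
  | nil => exact ⟨[], ⟨by simp, by simp⟩, by simp [ev]; rfl⟩
  | cons s w ih =>
    obtain ⟨L, hL, hw⟩ := ih
    obtain ⟨a, b⟩ := s
    have hx : FreeGroup.mk ((a, b) :: w) = FreeGroup.of a ^ (if b then (1:ℤ) else -1) *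
        FreeGroup.mk w := by
      have : FreeGroup.mk ((a, b) :: w) = FreeGroup.mk [(a, b)] * FreeGroup.mk w := by
        rw [FreeGroup.mul_mk]; rfl
      rw [this]
      cases b
      · simp [FreeGroup.of, FreeGroup.inv_mk, FreeGroup.invRev]
      · simp [FreeGroup.of]
    rw [hx, ← hw]
    exact syl_cons L hL a _ (by cases b <;> simp)

section Mat

variable {p : ℕ} [hp : Fact p.Prime] {n : ℕ}

/-- Unitriangular matrices. -/
def UT (M : Matrix (Fin n) (Fin n) (ZMod p)) : Prop :=
  (∀ a, M a a = 1) ∧ ∀ a b, b < a → M a b = 0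


theorem UT_one : UT (1 : Matrix (Fin n) (Fin n) (ZMod p)) :=
  ⟨fun a => by simp, fun a b h => by rw [Matrix.one_apply_ne (ne_of_gt h)]⟩


theorem UT_mul {M N : Matrix (Fin n) (Fin n) (ZMod p)} (hM : UT M) (hN : UT N) : UT (M * N) := by
  constructor
  · intro a
    rw [Matrix.mul_apply, Finset.sum_eq_single a]
    · rw [hM.1, hN.1, one_mul]
    · intro b _ hb
      rcases lt_or_gt_of_ne hb with h | h
      · rw [hM.2 a b h, zero_mul]
      · rw [hN.2 b a h, mul_zero]
    · intro h; exact absurd (Finset.mem_univ a) h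
  · intro a b hab
    rw [Matrix.mul_apply]
    refine Finset.sum_eq_zero (fun c _ => ?_)
    rcases lt_or_ge c a with h | h
    · rw [hM.2 a c h, zero_mul]
    · rw [hN.2 c b (lt_of_lt_of_le hab h), mul_zero]


theorem UT_pow {M : Matrix (Fin n) (Fin n) (ZMod p)} (hM : UT M) (k : ℕ) : UT (M ^ k) := by
  induction k with
  | zero => rw [pow_zero]; exact UT_one
  | succ k ih => rw [pow_succ]; exact UT_mul ih hM


theorem strict_pow {X : Matrix (Fin n) (Fin n) (ZMod p)} (hX : ∀ a b, b ≤ a → X a b = 0)
    (k : ℕ) : ∀ a b : Fin n, (b : ℕ) < a + k → (X ^ k) a b = 0 := by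
  induction k with
  | zero =>
    intro a b h
    rw [pow_zero, Matrix.one_apply_ne]
    rintro rfl
    simp at h
  | succ k ih =>
    intro a b h
    rw [pow_succ, Matrix.mul_apply]
    refine Finset.sum_eq_zero (fun c _ => ?_)
    rcases lt_or_ge (c : ℕ) (a + k) with h1 | h1
    · rw [ih a c h1, zero_mul]
    · rw [hX c b, mul_zero]
      rw [Fin.le_def]; omega

theorem UT_pow_eq_one {M : Matrix (Fin n) (Fin n) (ZMod p)} (hM : UT M) : M ^ (p ^ n) = 1 := by
  have hX : ∀ a b, b ≤ a → (M - 1) a b = 0 := by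
    intro a b h
    rcases eq_or_lt_of_le h with rfl | h
    · simp [hM.1]
    · rw [Matrix.sub_apply, hM.2 a b h, Matrix.one_apply_ne (ne_of_gt h), sub_zero]
  have hn : (M - 1) ^ (p ^ n) = 0 := by
    ext a b
    rw [strict_pow hX (p ^ n) a b]
    · rfl
    · have h1 : n < p ^ n := Nat.lt_pow_self hp.out.one_lt
      have := b.2
      omega
  rcases Nat.eq_zero_or_pos n with h0 | h0
  · subst h0
    ext a; exact a.elim0
  · have : Nonempty (Fin n) := ⟨⟨0, h0⟩⟩
    have h2 : M = (M - 1) + 1 := by simp
    rw [h2, add_pow_char_pow_of_commute (p := p) _ (Commute.one_right _), hn, one_pow, zero_add]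

/-- The finite p-group of unitriangular matrices. -/
def PG (p : ℕ) [hp : Fact p.Prime] (n : ℕ) : Subgroup (Matrix (Fin n) (Fin n) (ZMod p))ˣ where
  carrier := {u | UT (u : Matrix (Fin n) (Fin n) (ZMod p))}
  mul_mem' := by
    intro a b ha hb
    exact UT_mul ha hb
  one_mem' := UT_one
  inv_mem' := by
    intro u hu
    have h1 : u ^ (p ^ n) = 1 := by
      ext1
      rw [Units.val_pow_eq_pow_val, UT_pow_eq_one hu]; rfl
    have h2 : u⁻¹ = u ^ (p ^ n - 1) := by
      rw [inv_eq_iff_mul_eq_one, ← pow_succ', Nat.sub_add_cancel (Nat.one_le_pow _ _ hp.out.pos), h1]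
    change UT (u⁻¹ : (Matrix (Fin n) (Fin n) (ZMod p))ˣ).1
    rw [h2, Units.val_pow_eq_pow_val]
    exact UT_pow hu _

theorem PG_pow (y : PG p n) : y ^ (p ^ n) = 1 := by
  ext1
  rw [Subgroup.coe_pow]
  ext1
  rw [Units.val_pow_eq_pow_val, UT_pow_eq_one y.2]; rfl

instance : Finite (PG p n) := by
  have : Finite (Matrix (Fin n) (Fin n) (ZMod p)) := by
    have := hp.out.ne_zero
    have : NeZero p := ⟨hp.out.ne_zero⟩
    unfold Matrix
    infer_instance
  infer_instance

/-- The nilpotent matrix attached to a generator and a list of letters. -/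
def NM (p : ℕ) {α : Type} [DecidableEq α] (n : ℕ) (w : List α) (i : α) :
    Matrix (Fin n) (Fin n) (ZMod p) :=
  fun a b => if (a : ℕ) + 1 = b ∧ w[(a : ℕ)]? = some i then 1 else 0

theorem NM_sq {α : Type} [DecidableEq α] (w : List α) (hw : w.IsChain (· ≠ ·)) (i : α) :
    NM p n w i * NM p n w i = 0 := by
  ext a b
  rw [Matrix.mul_apply]
  refine Finset.sum_eq_zero (fun c _ => ?_)
  unfold NM
  by_cases h1 : (a : ℕ) + 1 = c ∧ w[(a : ℕ)]? = some i
  · by_cases h2 : (c : ℕ) + 1 = b ∧ w[(c : ℕ)]? = some i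
    · exfalso
      obtain ⟨h1a, h1b⟩ := h1
      obtain ⟨-, h2b⟩ := h2
      rw [← h1a] at h2b
      rw [List.getElem?_eq_some_iff] at h1b h2b
      obtain ⟨g1, g2⟩ := h1b
      obtain ⟨g3, g4⟩ := h2b
      have := List.isChain_iff_getElem.1 hw (a : ℕ) g3
      exact this (g2.trans g4.symm)
    · rw [if_neg h2, mul_zero]
  · rw [if_neg h1, zero_mul]

/-- The unit `1 + e N`. -/
def UM (p : ℕ) [Fact p.Prime] {α : Type} [DecidableEq α] (n : ℕ) (w : List α)
    (hw : w.IsChain (· ≠ ·)) (i : α) (e : ℤ) : (Matrix (Fin n) (Fin n) (ZMod p))ˣ where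
  val := 1 + e • NM p n w i
  inv := 1 - e • NM p n w i
  val_inv := by
    rw [add_mul, mul_sub, mul_sub, one_mul, one_mul, mul_one, smul_mul_smul_comm, NM_sq w hw i]
    simp
  inv_val := by
    rw [sub_mul, mul_add, mul_add, one_mul, one_mul, mul_one, smul_mul_smul_comm, NM_sq w hw i]
    simp

theorem UM_val {α : Type} [DecidableEq α] (w : List α) (hw : w.IsChain (· ≠ ·)) (i : α)
    (e : ℤ) : (UM p n w hw i e : Matrix (Fin n) (Fin n) (ZMod p)) = 1 + e • NM p n w i := rfl

theorem UM_mul {α : Type} [DecidableEq α] (w : List α) (hw : w.IsChain (· ≠ ·)) (i : α)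
    (e f : ℤ) : UM p n w hw i e * UM p n w hw i f = UM p n w hw i (e + f) := by
  ext1
  rw [Units.val_mul]
  change (1 + e • NM p n w i) * (1 + f • NM p n w i) = 1 + (e + f) • NM p n w i
  rw [add_mul, mul_add, mul_add, one_mul, one_mul, mul_one, smul_mul_smul_comm, NM_sq w hw i,
    add_smul]
  simp only [smul_zero, add_zero]
  abel

theorem UM_zero {α : Type} [DecidableEq α] (w : List α) (hw : w.IsChain (· ≠ ·)) (i : α) :
    UM p n w hw i 0 = 1 := by
  ext1
  change (1 + (0:ℤ) • NM p n w i) = 1
  simp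

theorem UM_zpow {α : Type} [DecidableEq α] (w : List α) (hw : w.IsChain (· ≠ ·)) (i : α)
    (e : ℤ) : (UM p n w hw i 1) ^ e = UM p n w hw i e := by
  let φ : Multiplicative ℤ →* (Matrix (Fin n) (Fin n) (ZMod p))ˣ :=
    { toFun := fun e => UM p n w hw i e.toAdd
      map_one' := UM_zero w hw i
      map_mul' := fun a b => (UM_mul w hw i _ _).symm }
  have h := map_zpow φ (Multiplicative.ofAdd 1) e
  rw [← ofAdd_zsmul] at h
  simpa [φ] using h.symm

theorem UT_UM {α : Type} [DecidableEq α] (w : List α) (hw : w.IsChain (· ≠ ·)) (i : α)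
    (e : ℤ) : UT (UM p n w hw i e : Matrix (Fin n) (Fin n) (ZMod p)) := by
  change UT (1 + e • NM p n w i)
  constructor
  · intro a
    rw [Matrix.add_apply, Matrix.smul_apply]
    have : NM p n w i a a = 0 := by
      unfold NM; rw [if_neg]; rintro ⟨h, -⟩; omega
    rw [this]; simp
  · intro a b hab
    rw [Matrix.add_apply, Matrix.smul_apply, Matrix.one_apply_ne (ne_of_gt hab)]
    have : NM p n w i a b = 0 := by
      unfold NM; rw [if_neg]; rintro ⟨h, -⟩; rw [Fin.lt_def] at hab; omega
    rw [this]; simp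

theorem prod_entry {α : Type} [DecidableEq α] (L : List (α × ℤ))
    (hw : (L.map Prod.fst).IsChain (· ≠ ·)) (k : ℕ) (hk : k ≤ L.length) :
    (∀ b : Fin (L.length + 1), (b : ℕ) = k →
      (((L.take k).map (fun s => UM p (L.length + 1) (L.map Prod.fst) hw s.1 s.2)).prod :
        (Matrix (Fin (L.length + 1)) (Fin (L.length + 1)) (ZMod p))ˣ).1 0 b =
        ((L.take k).map (fun s => (s.2 : ZMod p))).prod) ∧
    (∀ b : Fin (L.length + 1), k < (b : ℕ) →
      (((L.take k).map (fun s => UM p (L.length + 1) (L.map Prod.fst) hw s.1 s.2)).prod :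
        (Matrix (Fin (L.length + 1)) (Fin (L.length + 1)) (ZMod p))ˣ).1 0 b = 0) := by
  induction k with
  | zero =>
    constructor
    · intro b hb
      have : b = 0 := Fin.ext hb
      subst this
      simp
    · intro b hb
      simp only [List.take_zero, List.map_nil, List.prod_nil, Units.val_one]
      rw [Matrix.one_apply_ne]
      rintro rfl
      simp at hb
  | succ k ih =>
    obtain ⟨ih1, ih2⟩ := ih (by omega)
    have hk' : k < L.length := by omega
    have htake : L.take (k + 1) = L.take k ++ [L[k]] := by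
      rw [List.take_succ_eq_append_getElem hk']
    have hlet : (L.map Prod.fst)[k]? = some (L[k]).1 := by
      rw [List.getElem?_map, List.getElem?_eq_getElem hk']; rfl
    have key : ∀ b : Fin (L.length + 1), 1 ≤ (b : ℕ) → k < (b : ℕ) →
        (((L.take (k+1)).map (fun s => UM p (L.length + 1) (L.map Prod.fst) hw s.1 s.2)).prod :
        (Matrix (Fin (L.length + 1)) (Fin (L.length + 1)) (ZMod p))ˣ).1 0 b =
        (((L.take k).map (fun s => UM p (L.length + 1) (L.map Prod.fst) hw s.1 s.2)).prod :
        (Matrix (Fin (L.length + 1)) (Fin (L.length + 1)) (ZMod p))ˣ).1 0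
          ⟨(b:ℕ) - 1, by omega⟩ * ((L[k]).2 * NM p (L.length + 1) (L.map Prod.fst) (L[k]).1
          ⟨(b:ℕ) - 1, by omega⟩ b) := by
      intro b hb1 hb2
      rw [htake, List.map_append, List.prod_append, List.map_cons, List.map_nil,
        List.prod_cons, List.prod_nil, mul_one, Units.val_mul]
      rw [UM_val, mul_add, mul_one, Matrix.add_apply, ih2 b hb2, zero_add, Matrix.mul_apply,
        Finset.sum_eq_single ⟨(b:ℕ) - 1, by omega⟩]
      · rw [Matrix.smul_apply]
        simp
      · intro c _ hc
        rw [Matrix.smul_apply]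
        have : NM p (L.length + 1) (L.map Prod.fst) (L[k]).1 c b = 0 := by
          unfold NM; rw [if_neg]; rintro ⟨h, -⟩
          apply hc
          apply Fin.ext
          simp only
          omega
        rw [this]; simp
      · intro h; exact absurd (Finset.mem_univ _) h
    constructor
    · intro b hb
      rw [key b (by omega) (by omega), ih1 ⟨(b:ℕ) - 1, by omega⟩ (by simp only; omega)]
      have : NM p (L.length + 1) (L.map Prod.fst) (L[k]).1 ⟨(b:ℕ) - 1, by omega⟩ b = 1 := by
        unfold NM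
        rw [if_pos]
        constructor
        · simp only; omega
        · have : (b : ℕ) - 1 = k := by omega
          simp only [this]
          exact hlet
      rw [this, mul_one, htake, List.map_append, List.prod_append]
      simp
    · intro b hb
      rw [key b (by omega) (by omega), ih2 ⟨(b:ℕ) - 1, by omega⟩ (by simp only; omega), zero_mul]

end Mat

/-- Free groups are residually finite-p for a prime depending on the element, with all but
finitely many generators killed. -/
theorem freeGroup_detect (x : FreeGroup ℕ) (hx : x ≠ 1) :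
    ∃ (p : ℕ) (_ : Fact p.Prime) (P : Type) (_ : Group P) (_ : Finite P) (c : ℕ)
      (_ : ∀ y : P, y ^ (p ^ c) = 1) (a : ℕ → P) (K0 : ℕ),
      (∀ k, K0 ≤ k → a k = 1) ∧ FreeGroup.lift a x ≠ 1 := by
  obtain ⟨L, ⟨hL1, hL2⟩, rfl⟩ := exists_syl x
  -- a prime not dividing the product of the exponents
  let m : ℤ := (L.map Prod.snd).prod
  have hm : m ≠ 0 := by
    intro h
    rw [List.prod_eq_zero_iff] at h
    obtain ⟨s, hs, h0⟩ := List.mem_map.1 h
    exact hL1 s hs h0
  obtain ⟨p, hp1, hp2⟩ := Nat.exists_infinite_primes (m.natAbs + 1)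
  have hpf : Fact p.Prime := ⟨hp2⟩
  have hpm : (m : ZMod p) ≠ 0 := by
    rw [Ne, ZMod.intCast_zmod_eq_zero_iff_dvd]
    intro h
    have := Int.natAbs_dvd_natAbs.2 h
    rw [Int.natAbs_natCast] at this
    have := Nat.le_of_dvd (Int.natAbs_pos.2 hm) this
    omega
  have hw : (L.map Prod.fst).IsChain (· ≠ ·) := by
    rw [List.isChain_map]; exact hL2
  let a : ℕ → PG p (L.length + 1) := fun i =>
    ⟨UM p (L.length + 1) (L.map Prod.fst) hw i 1, UT_UM _ hw i 1⟩
  refine ⟨p, hpf, PG p (L.length + 1), inferInstance, inferInstance, L.length + 1,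
    fun y => PG_pow y, a, (L.map Prod.fst).sum + 1, ?_, ?_⟩
  · intro k hk
    ext1
    ext1
    change (1 + (1:ℤ) • NM p (L.length + 1) (L.map Prod.fst) k) = 1
    have : NM p (L.length + 1) (L.map Prod.fst) k = 0 := by
      ext a b
      unfold NM
      rw [if_neg]
      · rfl
      · rintro ⟨-, h⟩
        have hmem : k ∈ L.map Prod.fst := List.mem_of_getElem? h
        have := List.le_sum_of_mem hmem
        omega
    rw [this]; simp
  · intro h
    have h2 : ((FreeGroup.lift a (ev L) : PG p (L.length + 1)) :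
        (Matrix (Fin (L.length + 1)) (Fin (L.length + 1)) (ZMod p))ˣ) =
        (L.map (fun s => UM p (L.length + 1) (L.map Prod.fst) hw s.1 s.2)).prod := by
      unfold ev
      rw [map_list_prod, List.map_map]
      have : (Subgroup.subtype (PG p (L.length + 1)))
          ((L.map (FreeGroup.lift a ∘ fun s => FreeGroup.of s.1 ^ s.2)).prod) =
          (L.map (fun s => UM p (L.length + 1) (L.map Prod.fst) hw s.1 s.2)).prod := by
        rw [map_list_prod, List.map_map]
        congr 1
        apply List.map_congr_left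
        intro s _
        simp only [Function.comp, map_zpow, FreeGroup.lift_apply_of]
        exact UM_zpow _ hw s.1 s.2
      exact this
    rw [h] at h2
    have h3 := (prod_entry (p := p) L hw L.length le_rfl).1 (Fin.last _) (by simp)
    rw [List.take_length, ← h2] at h3
    have h4 : L ≠ [] := by
      rintro rfl
      exact hx (by simp [ev])
    have h5 : (0 : Fin (L.length + 1)) ≠ Fin.last _ := by
      intro h
      have := congrArg Fin.val h
      simp at this
      exact h4 (List.length_eq_zero_iff.1 this.symm)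
    have h6 : (1 : Matrix (Fin (L.length + 1)) (Fin (L.length + 1)) (ZMod p)) 0 (Fin.last _) = 0 :=
      Matrix.one_apply_ne h5
    have h7 : (m : ZMod p) = (L.map (fun s => (s.2 : ZMod p))).prod := by
      change (((L.map Prod.snd).prod : ℤ) : ZMod p) = _
      rw [Int.cast_list_prod, List.map_map]
      rfl
    rw [← h7] at h3
    apply hpm
    rw [← h3]
    exact h6

end Pool.Agent.Helper642.FreeResP
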