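import Mathlib
import Pool.Agent.Helper642.FreeResP

set_option autoImplicit false

namespace Pool.Agent.Helper642.PermP

/-- The exponents. -/
def q (k : ℕ) : ℕ := (k + 2).factorial

variable {P : Type} [Group P]

/-- One step of the triangular map on sequences. -/
def stp (a : ℕ → P) : ℕ → P
  | 0 => a 0
  | k + 1 => a k ^ q k * a (k + 1)

theorem stp_inj : Function.Injective (stp (P := P)) := by
  intro a b h
  funext k
  induction k with
  | zero => exact congrFun h 0
  | succ k ih =>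
    have h1 := congrFun h (k + 1)
    change a k ^ q k * a (k + 1) = b k ^ q k * b (k + 1) at h1
    rw [ih] at h1
    exact mul_left_cancel h1

theorem stp_agree (k : ℕ) (a b : ℕ → P) (h : ∀ j ≤ k, a j = b j) :
    ∀ j ≤ k, stp a j = stp b j := by
  intro j hj
  cases j with
  | zero => exact h 0 (Nat.zero_le _)
  | succ j =>
    change a j ^ q j * a (j + 1) = b j ^ q j * b (j + 1)
    rw [h j (by omega), h (j + 1) hj]

theorem iter_agree (n k : ℕ) : ∀ (a b : ℕ → P), (∀ j ≤ k, a j = b j) →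
    ∀ j ≤ k, stp^[n] a j = stp^[n] b j := by
  induction n with
  | zero => intro a b h; exact h
  | succ n ih =>
    intro a b h
    rw [Function.iterate_succ_apply, Function.iterate_succ_apply]
    exact ih _ _ (stp_agree k a b h)

/-- The cocycle. -/
def cyc (k : ℕ) (a : ℕ → P) : ℕ → P
  | 0 => 1
  | n + 1 => (stp^[n] a k) ^ q k * cyc k a n

theorem iter_cyc (k n : ℕ) (a : ℕ → P) : stp^[n] a (k + 1) = cyc k a n * a (k + 1) := by
  induction n with
  | zero => simp [cyc]
  | succ n ih =>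
    rw [Function.iterate_succ_apply']
    change (stp^[n] a k) ^ q k * (stp^[n] a (k + 1)) = _
    rw [ih]
    simp only [cyc]
    rw [mul_assoc]

theorem cyc_agree (k n : ℕ) (a b : ℕ → P) (h : ∀ j ≤ k, a j = b j) : cyc k a n = cyc k b n := by
  induction n with
  | zero => rfl
  | succ n ih =>
    simp only [cyc]
    rw [ih, iter_agree n k a b h k le_rfl]

theorem iter_pow_cyc (k m : ℕ) (h : ∀ (a : ℕ → P), ∀ j ≤ k, stp^[m] a j = a j) (n : ℕ)
    (a : ℕ → P) : stp^[m * n] a (k + 1) = cyc k a m ^ n * a (k + 1) := by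
  induction n generalizing a with
  | zero => simp
  | succ n ih =>
    rw [Nat.mul_succ, Function.iterate_add_apply, ih, iter_cyc,
      cyc_agree k m (stp^[m] a) a (h a), pow_succ, mul_assoc]

theorem iter_fix (p c : ℕ) (hP : ∀ y : P, y ^ (p ^ c) = 1) (k : ℕ) :
    ∃ m : ℕ, ∀ (a : ℕ → P), ∀ j ≤ k, stp^[p ^ m] a j = a j := by
  induction k with
  | zero =>
    refine ⟨0, fun a j hj => ?_⟩
    obtain rfl : j = 0 := by omega
    rfl
  | succ k ih =>
    obtain ⟨m, hm⟩ := ih
    refine ⟨m + c, fun a j hj => ?_⟩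
    have hit : ∀ n (a : ℕ → P), ∀ j ≤ k, stp^[p ^ m * n] a j = a j := by
      intro n
      induction n with
      | zero => intro a j _; rfl
      | succ n ihn =>
        intro a j hj
        rw [Nat.mul_succ, Function.iterate_add_apply, ihn _ j hj, hm a j hj]
    rcases Nat.lt_or_ge k j with h | h
    · obtain rfl : j = k + 1 := by omega
      rw [pow_add, iter_pow_cyc k (p ^ m) hm, hP, one_mul]
    · rw [pow_add]
      exact hit _ a j h

/-- sequences trivial beyond K -/
def Sq (P : Type) [Group P] (K : ℕ) : Type := {a : ℕ → P // ∀ k, K < k → a k = 1}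

instance (K : ℕ) [Finite P] : Finite (Sq P K) := by
  let F : Sq P K → (Fin (K + 1) → P) := fun a i => a.1 i
  refine Finite.of_injective F ?_
  intro a b h
  apply Subtype.ext
  funext k
  rcases Nat.lt_or_ge K k with hk | hk
  · rw [a.2 k hk, b.2 k hk]
  · exact congrFun h ⟨k, by omega⟩

/-- The step on bounded sequences. -/
def stpK (K C : ℕ) (hP : ∀ y : P, y ^ C = 1) (hK : ∀ k, K ≤ k → C ∣ q k) (a : Sq P K) : Sq P K :=
  ⟨stp a.1, by
    intro k hk
    cases k with
    | zero => omega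
    | succ k =>
      change a.1 k ^ q k * a.1 (k + 1) = 1
      obtain ⟨d, hd⟩ := hK k (by omega)
      rw [hd, pow_mul, hP, one_pow, one_mul, a.2 (k + 1) hk]⟩

theorem stpK_iter (K C : ℕ) (hP : ∀ y : P, y ^ C = 1) (hK : ∀ k, K ≤ k → C ∣ q k)
    (a : Sq P K) (n : ℕ) : ((stpK K C hP hK)^[n] a).1 = stp^[n] a.1 := by
  induction n with
  | zero => rfl
  | succ n ih =>
    rw [Function.iterate_succ_apply', Function.iterate_succ_apply', ← ih]
    rfl

theorem stpK_bij [Finite P] (K C : ℕ) (hP : ∀ y : P, y ^ C = 1) (hK : ∀ k, K ≤ k → C ∣ q k) :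
    Function.Bijective (stpK K C hP hK) := by
  rw [← Finite.injective_iff_bijective]
  intro a b h
  apply Subtype.ext
  exact stp_inj (congrArg Subtype.val h)

/-- The permutation. -/
noncomputable def perm [Finite P] (K C : ℕ) (hP : ∀ y : P, y ^ C = 1)
    (hK : ∀ k, K ≤ k → C ∣ q k) : Equiv.Perm (Sq P K) :=
  Equiv.ofBijective _ (stpK_bij K C hP hK)

theorem perm_pow [Finite P] (K p c : ℕ) (hP : ∀ y : P, y ^ (p ^ c) = 1)
    (hK : ∀ k, K ≤ k → p ^ c ∣ q k) : ∃ m : ℕ, (perm K (p ^ c) hP hK) ^ (p ^ m) = 1 := by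
  obtain ⟨m, hm⟩ := iter_fix p c hP K
  refine ⟨m, ?_⟩
  ext a
  rw [Equiv.Perm.one_apply]
  apply Subtype.ext
  have h1 : ((perm K (p ^ c) hP hK) ^ (p ^ m)) a = (stpK K (p ^ c) hP hK)^[p ^ m] a := by
    rw [Equiv.Perm.coe_pow]
    rfl
  rw [h1, stpK_iter]
  funext k
  rcases Nat.lt_or_ge K k with hk | hk
  · have := ((stpK K (p ^ c) hP hK)^[p ^ m] a).2 k hk
    rw [stpK_iter] at this
    rw [this, a.2 k hk]
  · exact hm a.1 k hk

/-- action on functions -/
def act (I P : Type) [Group P] : Equiv.Perm I →* MulAut (I → P) where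
  toFun σ :=
    { toFun := fun f i => f (σ.symm i)
      invFun := fun f i => f (σ i)
      left_inv := fun f => by funext i; simp
      right_inv := fun f => by funext i; simp
      map_mul' := fun f g => rfl }
  map_one' := by ext f; rfl
  map_mul' σ τ := by ext f; rfl

theorem detect (x : FreeGroup ℕ) (hx : x ≠ 1) :
    ∃ (H : Type) (_ : Group H) (_ : Group.IsNilpotent H) (T : H) (U : ℕ → H),
      T * U 0 * T⁻¹ = U 0 ∧ (∀ k, T * U (k + 1) * T⁻¹ = U k ^ q k * U (k + 1)) ∧
      FreeGroup.lift U x ≠ 1 := by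
  obtain ⟨p, hp, P, _, hPf, c, hP, a, K0, ha, hax⟩ := FreeResP.freeGroup_detect x hx
  let K : ℕ := K0 + p ^ c
  have hK : ∀ k, K ≤ k → p ^ c ∣ q k := by
    intro k hk
    apply Nat.dvd_factorial (pow_pos hp.out.pos _)
    change K0 + p ^ c ≤ k at hk
    omega
  let π := perm K (p ^ c) hP hK
  obtain ⟨m, hm⟩ := perm_pow K p c hP hK
  let Z := Subgroup.zpowers π
  let φ : Z →* MulAut (Sq P K → P) := (act (Sq P K) P).comp Z.subtype
  let H := (Sq P K → P) ⋊[φ] Z
  have hZf : Finite Z := Subtype.finite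
  have hN : IsPGroup p (Sq P K → P) := by
    intro f
    refine ⟨c, ?_⟩
    funext i
    exact hP _
  have hZ : IsPGroup p Z := by
    rintro ⟨y, hy⟩
    obtain ⟨n, rfl⟩ := Subgroup.mem_zpowers_iff.1 hy
    refine ⟨m, ?_⟩
    apply Subtype.ext
    change (π ^ n) ^ (p ^ m) = 1
    rw [← zpow_natCast, ← zpow_mul, mul_comm, zpow_mul, zpow_natCast]
    change (perm K (p ^ c) hP hK ^ (p ^ m)) ^ n = 1
    rw [hm, one_zpow]
  have hHf : Finite H := Finite.of_equiv _ (SemidirectProduct.equivProd (φ := φ)).symm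
  have hH : IsPGroup p H := by
    rw [IsPGroup.iff_card]
    obtain ⟨n1, h1⟩ := IsPGroup.iff_card.1 hN
    obtain ⟨n2, h2⟩ := IsPGroup.iff_card.1 hZ
    refine ⟨n1 + n2, ?_⟩
    rw [SemidirectProduct.card, h1, h2, pow_add]
  let π' : Z := ⟨π⁻¹, Subgroup.inv_mem _ (Subgroup.mem_zpowers π)⟩
  let U0 : ℕ → (Sq P K → P) := fun k b => b.1 k
  refine ⟨H, inferInstance, hH.isNilpotent, SemidirectProduct.inr π',
    fun k => SemidirectProduct.inl (U0 k), ?_, ?_, ?_⟩
  · rw [← map_inv, ← SemidirectProduct.inl_aut]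
    rfl
  · intro k
    rw [← map_inv, ← SemidirectProduct.inl_aut, ← map_pow, ← map_mul]
    rfl
  · intro h
    have h1 : FreeGroup.lift (fun k => (SemidirectProduct.inl (U0 k) : H)) =
        (SemidirectProduct.inl : (Sq P K → P) →* H).comp (FreeGroup.lift U0) := by
      apply FreeGroup.ext_hom
      intro k
      rw [FreeGroup.lift_apply_of, MonoidHom.comp_apply, FreeGroup.lift_apply_of]
    rw [h1, MonoidHom.comp_apply] at h
    have h2 : FreeGroup.lift U0 x = 1 := by
      apply SemidirectProduct.inl_injective (φ := φ)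
      rw [h, map_one]
    let a' : Sq P K := ⟨a, fun k hk => ha k (by change K0 + p ^ c < k at hk; omega)⟩
    have h3 : FreeGroup.lift a = (Pi.evalMonoidHom (fun _ : Sq P K => P) a').comp
        (FreeGroup.lift U0) := by
      ext k
      simp [U0, a']
    apply hax
    rw [h3, MonoidHom.comp_apply, h2, map_one]

end Pool.Agent.Helper642.PermP
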