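import Mathlib
import Pool.Agent.Helper642.PermP

set_option autoImplicit false

namespace Pool.Agent.Helper642.LemN

open PermP (q)

section Unip

variable {V : Type} [AddCommGroup V]

/-- automorphisms as multiplicative automorphisms. -/
abbrev MV (V : Type) [AddCommGroup V] := MulAut (Multiplicative V)

variable (D : AddMonoid.End V)

/-- The unipotence property. -/
def Q (σ : MV V) : Prop :=
  ∀ (i : ℕ) (v : V), (D ^ (i + 1)) v = 0 →
    (D ^ i) ((σ (Multiplicative.ofAdd v)).toAdd - v) = 0

theorem psa (i : ℕ) (v : V) : (D ^ (i + 1)) v = D ((D ^ i) v) := by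
  rw [pow_succ']; rfl

theorem Q_one : Q D 1 := by
  intro i v _
  simp

theorem Q_mul {σ τ : MV V} (hσ : Q D σ) (hτ : Q D τ) : Q D (σ * τ) := by
  intro i v hv
  have h1 := hτ i v hv
  have h2 : (D ^ (i + 1)) (τ (Multiplicative.ofAdd v)).toAdd = 0 := by
    have : (D ^ (i + 1)) ((τ (Multiplicative.ofAdd v)).toAdd - v) = 0 := by
      rw [psa, h1, map_zero]
    rw [map_sub, hv, sub_zero] at this
    exact this
  have h3 := hσ i _ h2
  have h4 : ((σ * τ) (Multiplicative.ofAdd v)).toAdd - v =
    ((σ (Multiplicative.ofAdd (τ (Multiplicative.ofAdd v)).toAdd)).toAdd -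
      (τ (Multiplicative.ofAdd v)).toAdd) + ((τ (Multiplicative.ofAdd v)).toAdd - v) := by
    rw [sub_add_sub_cancel]
    rfl
  rw [h4, map_add, h3, h1, add_zero]

theorem Q_inv {σ : MV V} (hσ : Q D σ) (hc : ∀ v : V, D (σ (Multiplicative.ofAdd v)).toAdd =
    (σ (Multiplicative.ofAdd (D v))).toAdd) : Q D σ⁻¹ := by
  have hc' : ∀ v : V, D ((σ⁻¹) (Multiplicative.ofAdd v)).toAdd =
      ((σ⁻¹) (Multiplicative.ofAdd (D v))).toAdd := by
    intro v
    have h1 := hc ((σ⁻¹) (Multiplicative.ofAdd v)).toAdd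
    rw [ofAdd_toAdd, MulAut.apply_inv_self, toAdd_ofAdd] at h1
    rw [h1, ofAdd_toAdd, MulAut.inv_apply_self, toAdd_ofAdd]
  have hci : ∀ (i : ℕ) (v : V), (D ^ i) ((σ⁻¹) (Multiplicative.ofAdd v)).toAdd =
      ((σ⁻¹) (Multiplicative.ofAdd ((D ^ i) v))).toAdd := by
    intro i
    induction i with
    | zero => intro v; simp
    | succ i ih =>
      intro v
      rw [psa, ih, hc', psa]
  have hcs : ∀ (i : ℕ) (v : V), (D ^ i) ((σ) (Multiplicative.ofAdd v)).toAdd =
      ((σ) (Multiplicative.ofAdd ((D ^ i) v))).toAdd := by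
    intro i
    induction i with
    | zero => intro v; simp
    | succ i ih =>
      intro v
      rw [psa, ih, hc, psa]
  intro i v hv
  have h1 := hσ i v hv
  rw [map_sub, hcs, sub_eq_zero] at h1
  rw [map_sub, hci, sub_eq_zero]
  -- σ (D^i v) = D^i v
  have h2 : σ (Multiplicative.ofAdd ((D ^ i) v)) = Multiplicative.ofAdd ((D ^ i) v) :=
    Multiplicative.toAdd.injective h1
  have h3 : (σ⁻¹) (Multiplicative.ofAdd ((D ^ i) v)) = Multiplicative.ofAdd ((D ^ i) v) := by
    conv_lhs => rw [← h2]
    rw [MulAut.inv_apply_self]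
  rw [h3, toAdd_ofAdd]

/-- Unipotent-by-cyclic groups are nilpotent. -/
theorem nilp (n : ℕ) (hn : D ^ n = 0) (Z : Type) [CommGroup Z] (φ : Z →* MV V)
    (hφ : ∀ z, Q D (φ z)) : Group.IsNilpotent (Multiplicative V ⋊[φ] Z) := by
  rw [Subgroup.nilpotent_iff_finite_ascending_central_series]
  let K : ℕ → Subgroup (Multiplicative V ⋊[φ] Z) := fun i =>
    if i ≤ n then
      { carrier := {x | x.right = 1 ∧ (D ^ i) x.left.toAdd = 0}
        mul_mem' := by
          rintro a b ⟨ha1, ha2⟩ ⟨hb1, hb2⟩
          refine ⟨by rw [SemidirectProduct.mul_right, ha1, hb1, one_mul], ?_⟩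
          rw [SemidirectProduct.mul_left, ha1, map_one, MulAut.one_apply, toAdd_mul, map_add,
            ha2, hb2, add_zero]
        one_mem' := by
          refine ⟨rfl, ?_⟩
          rw [SemidirectProduct.one_left, toAdd_one, map_zero]
        inv_mem' := by
          rintro a ⟨ha1, ha2⟩
          refine ⟨by rw [SemidirectProduct.inv_right, ha1, inv_one], ?_⟩
          rw [SemidirectProduct.inv_left, ha1, inv_one, map_one, MulAut.one_apply, toAdd_inv,
            map_neg, ha2, neg_zero] }
    else ⊤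
  have hK : ∀ i, i ≤ n → ∀ x, x ∈ K i ↔ (x.right = 1 ∧ (D ^ i) x.left.toAdd = 0) := by
    intro i hi x
    simp only [K, if_pos hi]
    rfl
  have hK2 : ∀ i, ¬ i ≤ n → K i = ⊤ := by
    intro i hi
    simp only [K, if_neg hi]
  refine ⟨n + 1, K, ⟨?_, ?_⟩, hK2 _ (by omega)⟩
  · rw [eq_bot_iff]
    intro x hx
    rw [hK 0 (Nat.zero_le _)] at hx
    rw [Subgroup.mem_bot]
    apply SemidirectProduct.ext
    · have := hx.2
      rw [pow_zero] at this
      exact this
    · exact hx.1
  · intro x i hx g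
    rw [commutatorElement_def]
    by_cases hi : i + 1 ≤ n
    · rw [hK (i + 1) hi] at hx
      rw [hK i (by omega)]
      obtain ⟨h1, h2⟩ := hx
      refine ⟨?_, ?_⟩
      · simp only [SemidirectProduct.mul_right, SemidirectProduct.inv_right, h1]
        simp
      · have h3 := hφ g.right i _ h2
        rw [ofAdd_toAdd] at h3
        have h4 : (x * g * x⁻¹ * g⁻¹).left.toAdd =
            - ((φ g.right x.left).toAdd - x.left.toAdd) := by
          simp only [SemidirectProduct.mul_left, SemidirectProduct.mul_right,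
            SemidirectProduct.inv_left, SemidirectProduct.inv_right, h1]
          simp only [inv_one, map_one, MulAut.one_apply, one_mul, mul_one, map_inv,
            MulAut.apply_inv_self, toAdd_mul, toAdd_inv]
          abel
        rw [h4, map_neg, h3, neg_zero]
    · by_cases hi2 : i ≤ n
      · rw [hK i hi2]
        obtain rfl : i = n := by omega
        refine ⟨?_, ?_⟩
        · simp only [SemidirectProduct.mul_right, SemidirectProduct.inv_right]
          rw [mul_comm x.right g.right]; simp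
        · rw [hn]; rfl
      · rw [hK2 i hi2]; exact Subgroup.mem_top _

end Unip

section Model

/-- The rational circle. -/
abbrev RC : Type := AddCircle (1 : ℚ)

variable (j : ℕ) (ι : ZMod j →+ RC)

/-- The nilpotent endomorphism. -/
def DD : AddMonoid.End (RC × (ℕ → ZMod j)) where
  toFun x := (ι (x.2 0), fun k => (q k : ZMod j) * x.2 (k + 1))
  map_zero' := by
    ext
    · simp
    · simp
  map_add' x y := by
    ext
    · simp
    · simp [mul_add]

theorem DD_apply (x : RC × (ℕ → ZMod j)) :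
    DD j ι x = (ι (x.2 0), fun k => (q k : ZMod j) * x.2 (k + 1)) := rfl

theorem DD_pow (hj : 0 < j) (i : ℕ) : ∀ (x : RC × (ℕ → ZMod j)) (k : ℕ), j ≤ k + i →
    (((DD j ι) ^ (i + 1)) x).2 k = 0 := by
  induction i with
  | zero =>
    intro x k hk
    rw [zero_add, pow_one, DD_apply]
    have : (q k : ZMod j) = 0 := by
      rw [ZMod.natCast_eq_zero_iff]
      exact Nat.dvd_factorial hj (by omega)
    simp only [this, zero_mul]
  | succ i ih =>
    intro x k hk
    rw [psa, DD_apply]
    simp only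
    rw [ih x (k + 1) (by omega), mul_zero]

theorem DD_nilp (hj : 0 < j) : (DD j ι) ^ (j + 2) = 0 := by
  refine DFunLike.ext _ _ (fun x => ?_)
  have h1 : (((DD j ι) ^ (j + 1)) x).2 = 0 := by
    funext k
    exact DD_pow j ι hj j x k (by omega)
  rw [show j + 2 = (j + 1) + 1 from rfl, psa, DD_apply, h1]
  refine Prod.ext ?_ ?_
  · exact map_zero ι
  · funext k
    exact mul_zero _

theorem exists_div (n : ℕ) (hn : n ≠ 0) (z : RC) : ∃ b : RC, n • b = z := by
  obtain ⟨r, rfl⟩ := QuotientAddGroup.mk_surjective z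
  refine ⟨((r / n : ℚ) : RC), ?_⟩
  rw [← AddCircle.coe_nsmul, nsmul_eq_mul, mul_div_cancel₀]
  exact_mod_cast hn

theorem exists_model (z : ℕ → RC) :
    ∃ (H : Type) (_ : Group H) (_ : Group.IsNilpotent H) (ζ : Multiplicative RC →* H)
      (T : H) (U : ℕ → H), Function.Injective ζ ∧ (∀ w h, Commute (ζ w) h) ∧
      T * U 0 * T⁻¹ = ζ (Multiplicative.ofAdd (z 0)) * U 0 ∧
      ∀ k, T * U (k + 1) * T⁻¹ = ζ (Multiplicative.ofAdd (z (k + 1))) * (U k ^ q k * U (k + 1)) := by
  let j := addOrderOf (z 0)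
  have hfin : IsOfFinAddOrder (z 0) := by
    obtain ⟨r, hr⟩ := QuotientAddGroup.mk_surjective (z 0)
    rw [isOfFinAddOrder_iff_nsmul_eq_zero]
    refine ⟨r.den, r.den_pos, ?_⟩
    rw [← hr]
    rw [← QuotientAddGroup.mk_nsmul, QuotientAddGroup.eq_zero_iff, AddSubgroup.mem_zmultiples_iff]
    refine ⟨r.num, ?_⟩
    rw [nsmul_eq_mul, mul_comm, Rat.mul_den_eq_num]
    simp
  have hj : 0 < j := addOrderOf_pos_iff.2 hfin
  let ι : ZMod j →+ RC := ZMod.lift j ⟨zmultiplesHom _ (z 0), by
    rw [zmultiplesHom_apply, natCast_zsmul]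
    exact addOrderOf_nsmul_eq_zero (z 0)⟩
  have hι : ι 1 = z 0 := by
    have := ZMod.lift_coe j (A := RC) ⟨zmultiplesHom _ (z 0), by
      rw [zmultiplesHom_apply, natCast_zsmul]
      exact addOrderOf_nsmul_eq_zero (z 0)⟩ 1
    simpa using this
  let V := RC × (ℕ → ZMod j)
  let D : AddMonoid.End V := DD j ι
  have hD : D ^ (j + 2) = 0 := DD_nilp j ι hj
  have hDa : ∀ x : V, D x = (ι (x.2 0), fun k => (q k : ZMod j) * x.2 (k + 1)) := fun x => rfl
  obtain ⟨u, hu⟩ := (IsNilpotent.isUnit_one_add (r := D) ⟨j + 2, hD⟩)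
  let T : V ≃+ V :=
    { toFun := fun v => u.val v
      invFun := fun v => u.inv v
      left_inv := fun v => by
        change (u.inv * u.val) v = v
        rw [u.inv_val]; rfl
      right_inv := fun v => by
        change (u.val * u.inv) v = v
        rw [u.val_inv]; rfl
      map_add' := fun v w => map_add u.val v w }
  have hT : ∀ v, T v = v + D v := by
    intro v
    change u.val v = _
    rw [hu]; rfl
  let σ : MV V := AddEquiv.toMultiplicative T
  have hσ : ∀ v : V, σ (Multiplicative.ofAdd v) = Multiplicative.ofAdd (v + D v) := by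
    intro v
    rw [← hT]; rfl
  have hQσ : Q D σ := by
    intro i v hv
    rw [hσ, toAdd_ofAdd, add_sub_cancel_left]
    rw [pow_succ] at hv
    exact hv
  have hQσi : Q D σ⁻¹ := by
    apply Q_inv D hQσ
    intro v
    rw [hσ, hσ, toAdd_ofAdd, toAdd_ofAdd, map_add]
  let φ : Multiplicative ℤ →* MV V := zpowersHom _ σ
  have hφ : ∀ z, Q D (φ z) := by
    intro z
    rw [zpowersHom_apply]
    induction z.toAdd using Int.induction_on with
    | zero => rw [zpow_zero]; exact Q_one D
    | succ n ih => rw [zpow_add_one]; exact Q_mul D ih hQσ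
    | pred n ih => rw [zpow_sub_one]; exact Q_mul D ih hQσi
  have hdiv : ∀ k, ∃ b : RC, q k • b = -z (k + 1) := fun k =>
    exists_div (q k) (Nat.factorial_ne_zero _) (-z (k + 1))
  choose β hβ using hdiv
  have hfix : ∀ (w : RC) (s : Multiplicative ℤ), φ s (Multiplicative.ofAdd ((w, 0) : V)) =
      Multiplicative.ofAdd ((w, 0) : V) := by
    intro w s
    have h1 : σ (Multiplicative.ofAdd ((w, 0) : V)) = Multiplicative.ofAdd ((w, 0) : V) := by
      rw [hσ, hDa]
      congr 1
      refine Prod.ext ?_ ?_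
      · change w + ι 0 = w
        rw [map_zero, add_zero]
      · funext k
        change (0 : ZMod j) + (q k : ZMod j) * 0 = 0
        simp
    have h2 : σ⁻¹ (Multiplicative.ofAdd ((w, 0) : V)) = Multiplicative.ofAdd ((w, 0) : V) := by
      conv_lhs => rw [← h1]
      rw [MulAut.inv_apply_self]
    rw [zpowersHom_apply]
    induction s.toAdd using Int.induction_on with
    | zero => rw [zpow_zero]; rfl
    | succ n ih => rw [zpow_add_one, MulAut.mul_apply, h1, ih]
    | pred n ih => rw [zpow_sub_one, MulAut.mul_apply, h2, ih]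
  have hφ1 : ∀ v : V, φ (Multiplicative.ofAdd 1) (Multiplicative.ofAdd v) =
      Multiplicative.ofAdd (v + D v) := by
    intro v
    rw [zpowersHom_apply, toAdd_ofAdd, zpow_one, hσ]
  refine ⟨Multiplicative V ⋊[φ] Multiplicative ℤ, inferInstance, nilp D (j + 2) hD _ φ hφ,
    (SemidirectProduct.inl : Multiplicative V →* _).comp
      (AddMonoidHom.toMultiplicative (AddMonoidHom.inl RC (ℕ → ZMod j))),
    SemidirectProduct.inr (Multiplicative.ofAdd 1),
    fun k => SemidirectProduct.inl (Multiplicative.ofAdd ((β k, Pi.single k 1) : V)), ?_, ?_, ?_, ?_⟩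
  · intro a b hab
    have h1 := SemidirectProduct.inl_injective hab
    have h2 : ((Multiplicative.toAdd a, 0) : V) = (Multiplicative.toAdd b, 0) := h1
    exact congrArg Prod.fst h2
  · intro w h
    change SemidirectProduct.inl (Multiplicative.ofAdd ((w.toAdd, 0) : V)) * h =
      h * SemidirectProduct.inl (Multiplicative.ofAdd ((w.toAdd, 0) : V))
    apply SemidirectProduct.ext
    · rw [SemidirectProduct.mul_left, SemidirectProduct.mul_left, SemidirectProduct.left_inl,
        SemidirectProduct.right_inl, map_one, MulAut.one_apply, hfix, mul_comm]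
    · rw [SemidirectProduct.mul_right, SemidirectProduct.mul_right, SemidirectProduct.right_inl,
        one_mul, mul_one]
  · rw [← map_inv, ← SemidirectProduct.inl_aut, hφ1]
    change _ = SemidirectProduct.inl (Multiplicative.ofAdd ((z 0, 0) : V)) *
      SemidirectProduct.inl (Multiplicative.ofAdd ((β 0, Pi.single 0 1) : V))
    rw [← map_mul, ← ofAdd_add, hDa]
    congr 2
    refine Prod.ext ?_ ?_
    · change β 0 + ι ((Pi.single 0 1 : ℕ → ZMod j) 0) = z 0 + β 0
      rw [Pi.single_eq_same, hι, add_comm]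
    · funext i
      change (Pi.single 0 1 : ℕ → ZMod j) i + (q i : ZMod j) * (Pi.single 0 1 : ℕ → ZMod j) (i + 1)
        = 0 + (Pi.single 0 1 : ℕ → ZMod j) i
      rw [Pi.single_eq_of_ne (Nat.succ_ne_zero i)]
      simp
  · intro k
    rw [← map_inv, ← SemidirectProduct.inl_aut, hφ1]
    change _ = SemidirectProduct.inl (Multiplicative.ofAdd ((z (k + 1), 0) : V)) *
      (SemidirectProduct.inl (Multiplicative.ofAdd ((β k, Pi.single k 1) : V)) ^ (q k) *
      SemidirectProduct.inl (Multiplicative.ofAdd ((β (k + 1), Pi.single (k + 1) 1) : V)))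
    rw [← map_pow, ← map_mul, ← map_mul, ← ofAdd_nsmul, ← ofAdd_add, ← ofAdd_add, hDa]
    congr 2
    refine Prod.ext ?_ ?_
    · change β (k + 1) + ι ((Pi.single (k + 1) 1 : ℕ → ZMod j) 0) =
        z (k + 1) + (q k • β k + β (k + 1))
      rw [Pi.single_eq_of_ne (Nat.succ_ne_zero k).symm, map_zero, hβ]
      abel
    · funext i
      change (Pi.single (k + 1) 1 : ℕ → ZMod j) i +
        (q i : ZMod j) * (Pi.single (k + 1) 1 : ℕ → ZMod j) (i + 1) =
        0 + (q k • (Pi.single k 1 : ℕ → ZMod j) i + (Pi.single (k + 1) 1 : ℕ → ZMod j) i)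
      by_cases hik : i = k
      · subst hik
        rw [Pi.single_eq_same, Pi.single_eq_same, Pi.single_eq_of_ne (by omega)]
        simp
      · rw [Pi.single_eq_of_ne (show i + 1 ≠ k + 1 by omega), Pi.single_eq_of_ne hik]
        simp

end Model

end Pool.Agent.Helper642.LemN
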