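import Mathlib
import Pool.Agent.Helper642.LemN

set_option autoImplicit false

open scoped commutatorElement

namespace Pool.Agent.Helper642.LemT

variable {H : Type} [Group H]

theorem comm_pow_left {a b : H} (hc : ∀ h, Commute ⁅a, b⁆ h) (m : ℕ) :
    ⁅a ^ m, b⁆ = ⁅a, b⁆ ^ m := by
  induction m with
  | zero => simp
  | succ m ih =>
    have h1 : ⁅a ^ (m + 1), b⁆ = a ^ m * ⁅a, b⁆ * (a ^ m)⁻¹ * ⁅a ^ m, b⁆ := by
      simp only [commutatorElement_def, pow_succ]
      group
    rw [h1, ih, ← (hc (a ^ m)).eq, mul_inv_cancel_right, pow_succ']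

theorem comm_pow_left' {a b : H} (hc : Commute ⁅a, b⁆ a) (m : ℕ) :
    ⁅a ^ m, b⁆ = ⁅a, b⁆ ^ m := by
  induction m with
  | zero => simp
  | succ m ih =>
    have h1 : ⁅a ^ (m + 1), b⁆ = a ^ m * ⁅a, b⁆ * (a ^ m)⁻¹ * ⁅a ^ m, b⁆ := by
      simp only [commutatorElement_def, pow_succ]
      group
    rw [h1, ih, ← (hc.pow_right m).eq, mul_inv_cancel_right, pow_succ']

/-- The series. -/
def K (S : Set H) : ℕ → Subgroup H
  | 0 => Subgroup.normalClosure S
  | i + 1 => ⁅K S i, (⊤ : Subgroup H)⁆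

theorem K_normal (S : Set H) : ∀ i, (K S i).Normal
  | 0 => Subgroup.normalClosure_normal
  | i + 1 => by
    have := K_normal S i
    change (⁅K S i, (⊤ : Subgroup H)⁆).Normal
    infer_instance

theorem K_le (S : Set H) : ∀ i, K S i ≤ (⊤ : Subgroup H).lowerCentralSeries i
  | 0 => le_top
  | i + 1 => by
    have := K_le S i
    change ⁅K S i, (⊤ : Subgroup H)⁆ ≤ ⁅(⊤ : Subgroup H).lowerCentralSeries i, (⊤ : Subgroup H)⁆
    exact Subgroup.commutator_mono this le_rfl

theorem central_mod (S : Set H) (i : ℕ) (x : H) (hx : x ∈ K S i) [(K S (i + 1)).Normal]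
    (y : H ⧸ K S (i + 1)) : Commute (QuotientGroup.mk' (K S (i + 1)) x) y := by
  obtain ⟨y, rfl⟩ := QuotientGroup.mk'_surjective _ y
  rw [← commutatorElement_eq_one_iff_commute, ← map_commutatorElement, ← MonoidHom.mem_ker,
    QuotientGroup.ker_mk']
  exact Subgroup.commutator_mem_commutator hx (Subgroup.mem_top y)

/-- torsion step. -/
theorem step (S : Set H) (i : ℕ) (hi : ∀ x ∈ K S i, ∃ m : ℕ, 0 < m ∧ x ^ m ∈ K S (i + 1)) :
    ∀ x ∈ K S (i + 1), ∃ m : ℕ, 0 < m ∧ x ^ m ∈ K S (i + 2) := by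
  have hN := K_normal S (i + 2)
  let π := QuotientGroup.mk' (K S (i + 2))
  have hπ : ∀ x, π x = 1 ↔ x ∈ K S (i + 2) := by
    intro x
    rw [← MonoidHom.mem_ker, QuotientGroup.ker_mk']
  have key : ∀ x ∈ K S (i + 1), IsOfFinOrder (π x) := by
    intro x hx
    change x ∈ ⁅K S i, (⊤ : Subgroup H)⁆ at hx
    rw [Subgroup.commutator_def] at hx
    induction hx using Subgroup.closure_induction with
    | mem x hx =>
      obtain ⟨y, hy, g, -, rfl⟩ := hx
      obtain ⟨m, hm, hm2⟩ := hi y hy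
      rw [isOfFinOrder_iff_pow_eq_one]
      refine ⟨m, hm, ?_⟩
      have h1 : ⁅y, g⁆ ∈ K S (i + 1) := Subgroup.commutator_mem_commutator hy (Subgroup.mem_top g)
      have h2 : ∀ h, Commute ⁅π y, π g⁆ h := by
        intro h
        rw [← map_commutatorElement]
        exact central_mod S (i + 1) _ h1 h
      rw [map_commutatorElement, ← comm_pow_left h2, ← map_pow,
        commutatorElement_eq_one_iff_commute]
      exact central_mod S (i + 1) _ hm2 _
    | one => rw [map_one]; exact IsOfFinOrder.one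
    | mul x y hx hy h1 h2 =>
      rw [map_mul]
      rw [← Subgroup.commutator_def] at hx
      exact (central_mod S (i + 1) x hx (π y)).isOfFinOrder_mul h1 h2
    | inv x hx h1 =>
      rw [map_inv]
      exact h1.inv
  intro x hx
  obtain ⟨m, hm, h⟩ := isOfFinOrder_iff_pow_eq_one.1 (key x hx)
  refine ⟨m, hm, ?_⟩
  rw [← hπ, map_pow, h]

/-- base case -/
theorem base (S : Set H) (hS : ∀ x ∈ S, ∃ m : ℕ, 0 < m ∧ x ^ m ∈ K S 1) :
    ∀ x ∈ K S 0, ∃ m : ℕ, 0 < m ∧ x ^ m ∈ K S 1 := by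
  have hN := K_normal S 1
  let π := QuotientGroup.mk' (K S 1)
  have hπ : ∀ x, π x = 1 ↔ x ∈ K S 1 := by
    intro x
    rw [← MonoidHom.mem_ker, QuotientGroup.ker_mk']
  have key : ∀ x ∈ K S 0, IsOfFinOrder (π x) := by
    intro x hx
    change x ∈ Subgroup.normalClosure S at hx
    induction hx using Subgroup.closure_induction with
    | mem x hx =>
      rw [Group.mem_conjugatesOfSet_iff] at hx
      obtain ⟨a, ha, hax⟩ := hx
      obtain ⟨c, hc⟩ := isConj_iff.1 hax
      have h1 : π x = π a := by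
        rw [← hc, map_mul, map_mul, map_inv]
        have h2 : Commute (π a) (π c) :=
          central_mod S 0 a (Subgroup.subset_normalClosure ha) (π c)
        rw [← h2.eq, mul_inv_cancel_right]
      rw [h1]
      obtain ⟨m, hm, h⟩ := hS a ha
      exact isOfFinOrder_iff_pow_eq_one.2 ⟨m, hm, by rw [← map_pow, hπ]; exact h⟩
    | one => rw [map_one]; exact IsOfFinOrder.one
    | mul x y hx hy h1 h2 =>
      rw [map_mul]
      exact (central_mod S 0 x hx (π y)).isOfFinOrder_mul h1 h2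
    | inv x hx h1 =>
      rw [map_inv]
      exact h1.inv
  intro x hx
  obtain ⟨m, hm, h⟩ := isOfFinOrder_iff_pow_eq_one.1 (key x hx)
  refine ⟨m, hm, ?_⟩
  rw [← hπ, map_pow, h]

theorem torsion [Group.IsNilpotent H] (T : H) (U : ℕ → H) (q : ℕ → ℕ) (hq : ∀ k, 0 < q k)
    (h : ∀ k, T * U (k + 1) * T⁻¹ = U k ^ q k * U (k + 1)) (k : ℕ) :
    ∃ e : ℕ, 0 < e ∧ U k ^ e = 1 := by
  let S := Set.range U
  have hS : ∀ x ∈ S, ∃ m : ℕ, 0 < m ∧ x ^ m ∈ K S 1 := by
    rintro _ ⟨i, rfl⟩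
    refine ⟨q i, hq i, ?_⟩
    have h1 : U i ^ q i = ⁅U (i + 1), T⁆⁻¹ := by
      rw [commutatorElement_inv, commutatorElement_def, h i, mul_inv_cancel_right]
    rw [h1]
    apply Subgroup.inv_mem
    exact Subgroup.commutator_mem_commutator (Subgroup.subset_normalClosure ⟨i + 1, rfl⟩)
      (Subgroup.mem_top T)
  have hall : ∀ i, ∀ x ∈ K S i, ∃ m : ℕ, 0 < m ∧ x ^ m ∈ K S (i + 1) := by
    intro i
    induction i with
    | zero => exact base S hS
    | succ i ih => exact step S i ih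
  have hU : ∀ i, ∃ m : ℕ, 0 < m ∧ U k ^ m ∈ K S i := by
    intro i
    induction i with
    | zero =>
      refine ⟨1, one_pos, ?_⟩
      rw [pow_one]
      exact Subgroup.subset_normalClosure ⟨k, rfl⟩
    | succ i ih =>
      obtain ⟨m, hm, h1⟩ := ih
      obtain ⟨m', hm', h2⟩ := hall i _ h1
      refine ⟨m * m', Nat.mul_pos hm hm', ?_⟩
      rw [pow_mul]; exact h2
  obtain ⟨n, hn⟩ := Subgroup.nilpotent_iff_lowerCentralSeries.1 (inferInstance : Group.IsNilpotent H)
  obtain ⟨m, hm, h1⟩ := hU n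
  refine ⟨m, hm, ?_⟩
  have h2 := K_le S n h1
  rw [hn, Subgroup.mem_bot] at h2
  exact h2

end Pool.Agent.Helper642.LemT
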