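import Mathlib
import Pool.Agent.Helper642.LemT

set_option autoImplicit false

open scoped commutatorElement

namespace Pool.Agent.Helper642.Pres

open PermP (q)

/-- The free group. -/
abbrev F := FreeGroup (Option ℕ)

/-- the stable letter -/
def t : F := FreeGroup.of none
/-- the generators -/
def u (k : ℕ) : F := FreeGroup.of (some k)
/-- the commutator m -/
def m : F := ⁅t, u 0⁆
/-- the commutators b_k -/
def b (k : ℕ) : F := ⁅m, u k⁆
/-- the relators -/
def rr (k : ℕ) : F := t * u (k + 1) * t⁻¹ * (u k ^ q k * u (k + 1))⁻¹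

/-- relators of G -/
def R0 : Set F := {m} ∪ Set.range rr
/-- relators of E₁ -/
def R1 : Set F := Set.range rr ∪ Set.range (fun i => ⁅m, FreeGroup.of i⁆)
/-- relators of E₂ -/
def R2 : Set F := Set.range rr ∪ ({⁅m, t⁆} ∪ (Set.range (fun p : ℕ × F => ⁅b p.1, p.2⁆) ∪
  Set.range (fun k => b (k + 1) ^ (k + 3) * (b k)⁻¹)))

theorem cext {α : Type} (R R' : Set (FreeGroup α)) (h1 : ∀ r ∈ R, PresentedGroup.mk R' r = 1)
    (h2 : ∀ r ∈ R', ∀ i, Commute (PresentedGroup.mk R r) (PresentedGroup.mk R (FreeGroup.of i))) :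
    ∃ f : PresentedGroup R →* PresentedGroup R', Function.Surjective f ∧
      f.ker ≤ Subgroup.center _ := by
  have h3 : ∀ r ∈ R, FreeGroup.lift (fun i => (PresentedGroup.of i : PresentedGroup R')) r = 1 := by
    intro r hr
    rw [← h1 r hr]
    have : FreeGroup.lift (fun i => (PresentedGroup.of i : PresentedGroup R')) =
        PresentedGroup.mk R' := by
      apply FreeGroup.ext_hom
      intro i
      rw [FreeGroup.lift_apply_of]; rfl
    rw [this]
  let f : PresentedGroup R →* PresentedGroup R' := PresentedGroup.toGroup h3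
  have hf : ∀ w, f (PresentedGroup.mk R w) = PresentedGroup.mk R' w := by
    intro w
    have : f.comp (PresentedGroup.mk R) = PresentedGroup.mk R' := by
      apply FreeGroup.ext_hom
      intro i
      exact PresentedGroup.toGroup.of h3
    exact DFunLike.congr_fun this w
  refine ⟨f, ?_, ?_⟩
  · intro y
    obtain ⟨w, rfl⟩ := PresentedGroup.mk_surjective R' y
    exact ⟨_, hf w⟩
  · intro y hy
    obtain ⟨w, rfl⟩ := PresentedGroup.mk_surjective R y
    rw [MonoidHom.mem_ker, hf, PresentedGroup.mk_eq_one_iff] at hy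
    have h4 : Subgroup.normalClosure R' ≤
        (Subgroup.center (PresentedGroup R)).comap (PresentedGroup.mk R) := by
      apply Subgroup.normalClosure_le_normal
      intro r hr
      change PresentedGroup.mk R r ∈ Subgroup.center (PresentedGroup R)
      rw [Subgroup.mem_center_iff]
      intro g
      obtain ⟨g, rfl⟩ := PresentedGroup.mk_surjective R g
      induction g using FreeGroup.induction_on with
      | C1 => simp
      | of i => exact (h2 r hr i).eq.symm
      | inv_of i _ =>
        rw [map_inv]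
        exact (h2 r hr i).inv_right.eq.symm
      | mul x y hx hy =>
        rw [map_mul]
        exact ((Commute.mul_left (show Commute _ _ from hx) (show Commute _ _ from hy))).eq
    exact h4 hy

theorem ext1 : ∃ f : PresentedGroup R1 →* PresentedGroup R0, Function.Surjective f ∧
      f.ker ≤ Subgroup.center _ := by
  have hm : PresentedGroup.mk R0 m = 1 := PresentedGroup.one_of_mem (Or.inl rfl)
  apply cext
  · rintro r (⟨k, rfl⟩ | ⟨i, rfl⟩)
    · exact PresentedGroup.one_of_mem (Or.inr ⟨k, rfl⟩)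
    · rw [map_commutatorElement, hm, commutatorElement_one_left]
  · rintro r (rfl | ⟨k, rfl⟩) i
    · rw [← commutatorElement_eq_one_iff_commute, ← map_commutatorElement]
      exact PresentedGroup.one_of_mem (Or.inr ⟨i, rfl⟩)
    · have : PresentedGroup.mk R1 (rr k) = 1 := PresentedGroup.one_of_mem (Or.inl ⟨k, rfl⟩)
      rw [this]
      exact Commute.one_left _

theorem b_comm (k : ℕ) (g : F) : Commute (PresentedGroup.mk R2 (b k)) (PresentedGroup.mk R2 g) := by
  rw [← commutatorElement_eq_one_iff_commute, ← map_commutatorElement]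
  exact PresentedGroup.one_of_mem (Or.inr (Or.inr (Or.inl ⟨(k, g), rfl⟩)))

theorem ext2 : ∃ f : PresentedGroup R2 →* PresentedGroup R1, Function.Surjective f ∧
      f.ker ≤ Subgroup.center _ := by
  have hb : ∀ k, PresentedGroup.mk R1 (b k) = 1 := fun k =>
    PresentedGroup.one_of_mem (Or.inr ⟨some k, rfl⟩)
  apply cext
  · rintro r (⟨k, rfl⟩ | rfl | ⟨⟨k, g⟩, rfl⟩ | ⟨k, rfl⟩)
    · exact PresentedGroup.one_of_mem (Or.inl ⟨k, rfl⟩)
    · exact PresentedGroup.one_of_mem (Or.inr ⟨none, rfl⟩)
    · simp only [map_commutatorElement, hb, commutatorElement_one_left]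
    · simp only [map_mul, map_pow, map_inv, hb, one_pow, inv_one, mul_one]
  · rintro r (⟨k, rfl⟩ | ⟨i, rfl⟩) j
    · have : PresentedGroup.mk R2 (rr k) = 1 := PresentedGroup.one_of_mem (Or.inl ⟨k, rfl⟩)
      rw [this]
      exact Commute.one_left _
    · cases i with
      | none =>
        have : PresentedGroup.mk R2 ⁅m, FreeGroup.of none⁆ = 1 :=
          PresentedGroup.one_of_mem (Or.inr (Or.inl rfl))
        rw [this]
        exact Commute.one_left _
      | some k => exact b_comm k _

theorem pow_formula {H : Type} [Group H] (x y c : H) (hxy : y * x = c * (x * y))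
    (hcx : Commute c x) (hcy : Commute c y) (n : ℕ) : ∃ s : ℤ, (x * y) ^ n = x ^ n * y ^ n * c ^ s := by
  have h1 : ∀ n : ℕ, y ^ n * x = c ^ n * (x * y ^ n) := by
    intro n
    induction n with
    | zero => simp
    | succ n ih =>
      rw [pow_succ', mul_assoc, ih, ← mul_assoc, ((hcy.symm).pow_right n).eq, mul_assoc,
        ← mul_assoc y x, hxy, pow_succ]
      simp only [mul_assoc]
  induction n with
  | zero => exact ⟨0, by simp⟩
  | succ n ih =>
    obtain ⟨s, hs⟩ := ih
    refine ⟨n + s, ?_⟩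
    have h2 : Commute (c ^ s) (x * y) := (hcx.mul_right hcy).zpow_left s
    rw [pow_succ, hs, mul_assoc, h2.eq]
    have h3 : Commute (c ^ n) (x ^ (n + 1)) := (hcx.pow_left n).pow_right (n + 1)
    calc x ^ n * y ^ n * (x * y * c ^ s) = x ^ n * (y ^ n * x) * y * c ^ s := by
          simp only [mul_assoc]
      _ = x ^ n * (c ^ n * (x * y ^ n)) * y * c ^ s := by rw [h1]
      _ = (x ^ n * c ^ n) * x * y ^ (n + 1) * c ^ s := by
          rw [pow_succ y n]; simp only [mul_assoc]
      _ = (c ^ n * x ^ n) * x * y ^ (n + 1) * c ^ s := by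
          rw [((hcx.pow_left n).pow_right n).eq]
      _ = c ^ n * (x ^ (n + 1) * y ^ (n + 1)) * c ^ s := by
          rw [pow_succ x n]; simp only [mul_assoc]
      _ = (x ^ (n + 1) * y ^ (n + 1)) * c ^ n * c ^ s := by
          rw [((h3).mul_right ((hcy.pow_left n).pow_right (n + 1))).eq]
      _ = _ := by rw [zpow_add, zpow_natCast]; simp only [mul_assoc]

/-- the multiplicities -/
def nn : ℕ → ℕ
  | 0 => 1
  | k + 1 => (k + 3) * nn k

theorem two_nn (k : ℕ) : 2 * nn k = (k + 2).factorial := by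
  induction k with
  | zero => rfl
  | succ k ih =>
    rw [show k + 1 + 2 = (k + 2) + 1 from rfl, Nat.factorial_succ, ← ih]
    simp only [nn]
    ring

theorem killed (H : Type) [Group H] [Group.IsNilpotent H] (φ : PresentedGroup R2 →* H) :
    φ (PresentedGroup.mk R2 (b 0)) = 1 := by
  let ψ : F →* H := φ.comp (PresentedGroup.mk R2)
  have hψ : ∀ r ∈ R2, ψ r = 1 := by
    intro r hr
    change φ (PresentedGroup.mk R2 r) = 1
    rw [PresentedGroup.one_of_mem hr, map_one]
  have hrel : ∀ k, ψ t * ψ (u (k + 1)) * (ψ t)⁻¹ = ψ (u k) ^ q k * ψ (u (k + 1)) := by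
    intro k
    have := hψ (rr k) (Or.inl ⟨k, rfl⟩)
    unfold rr at this
    rw [map_mul, map_inv, mul_inv_eq_one] at this
    simpa using this
  obtain ⟨e, he, he2⟩ := LemT.torsion (ψ t) (fun k => ψ (u k)) q
    (fun k => Nat.factorial_pos _) hrel 0
  have hBc : ∀ k g, Commute (ψ (b k)) (ψ g) := by
    intro k g
    rw [← commutatorElement_eq_one_iff_commute, ← map_commutatorElement]
    exact hψ _ (Or.inr (Or.inr (Or.inl ⟨(k, g), rfl⟩)))
  have hB : ∀ k, ψ (b k) = ⁅ψ m, ψ (u k)⁆ := fun k => map_commutatorElement _ _ _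
  have h1 : (ψ m * ψ (u 0)) ^ e = 1 := by
    have : ψ m * ψ (u 0) = ψ t * ψ (u 0) * (ψ t)⁻¹ := by
      have h2 : ψ m = ⁅ψ t, ψ (u 0)⁆ := map_commutatorElement _ _ _
      rw [h2, commutatorElement_def, inv_mul_cancel_right]
    rw [this, conj_pow, he2, mul_one, mul_inv_cancel]
  have h2 : ψ (u 0) * ψ m = (ψ (b 0))⁻¹ * (ψ m * ψ (u 0)) := by
    rw [eq_inv_mul_iff_mul_eq, hB 0, commutatorElement_def]
    group
  obtain ⟨s, hs⟩ := pow_formula (ψ m) (ψ (u 0)) (ψ (b 0))⁻¹ h2 (hBc 0 m).inv_left
    (hBc 0 (u 0)).inv_left e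
  rw [h1, he2, mul_one] at hs
  have h3 : ∀ g, Commute (ψ m ^ e) (ψ g) := by
    intro g
    have h4 : ψ m ^ e = (((ψ (b 0))⁻¹) ^ s)⁻¹ := by
      rw [eq_inv_iff_mul_eq_one, ← hs]
    rw [h4]
    exact (((hBc 0 g).inv_left).zpow_left s).inv_left
  have h5 : ∀ k, ψ (b k) ^ e = 1 := by
    intro k
    have h6 := LemT.comm_pow_left' (a := ψ m) (b := ψ (u k)) (by rw [← hB k]; exact hBc k m) e
    rw [hB k, ← h6, commutatorElement_eq_one_iff_commute]
    exact h3 _
  have h7 : ∀ k, ψ (b 0) = ψ (b k) ^ (nn k) := by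
    intro k
    induction k with
    | zero => simp [nn]
    | succ k ih =>
      have h8 : ψ (b (k + 1)) ^ (k + 3) = ψ (b k) := by
        have := hψ (b (k + 1) ^ (k + 3) * (b k)⁻¹) (Or.inr (Or.inr (Or.inr ⟨k, rfl⟩)))
        rw [map_mul, map_inv, mul_inv_eq_one, map_pow] at this
        exact this
      rw [ih, ← h8, ← pow_mul]
      rfl
  have h9 : 2 * e ∣ 2 * nn (2 * e) := by
    rw [two_nn]
    exact Nat.dvd_factorial (by omega) (by omega)
  obtain ⟨c, hc⟩ := (Nat.mul_dvd_mul_iff_left (by norm_num)).1 h9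
  change ψ (b 0) = 1
  rw [h7 (2 * e), hc, pow_mul, h5, one_pow]

end Pool.Agent.Helper642.Pres
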