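import Mathlib
import Pool.Agent.Helper642.Pres

set_option autoImplicit false

open scoped commutatorElement

namespace Pool.Agent.Helper642.ModelM

open PermP (q)
open LemN (RC)
open Pres

/-- the classes 1/q_k -/
noncomputable def r (k : ℕ) : RC := ((1 / (q k : ℚ) : ℚ) : RC)

theorem q_ne (k : ℕ) : (q k : ℚ) ≠ 0 := by
  exact_mod_cast (Nat.factorial_ne_zero (k + 2))

theorem q_r (k : ℕ) : q k • r k = 0 := by
  unfold r
  rw [← AddCircle.coe_nsmul, nsmul_eq_mul, mul_one_div_cancel (q_ne k)]
  exact AddCircle.coe_period 1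

theorem r_succ (k : ℕ) : (k + 3) • r (k + 1) = r k := by
  unfold r
  rw [← AddCircle.coe_nsmul]
  congr 1
  have h1 : (q (k + 1) : ℚ) = (k + 3) * q k := by
    unfold q
    rw [show k + 1 + 2 = (k + 2) + 1 from rfl, Nat.factorial_succ]
    push_cast
    ring
  rw [h1, nsmul_eq_mul]
  have h2 := q_ne k
  have h3 : (k : ℚ) + 3 ≠ 0 := by positivity
  push_cast
  field_simp

theorem r_zero : r 0 ≠ 0 := by
  unfold r
  intro h
  rw [AddCircle.coe_eq_zero_iff] at h
  obtain ⟨n, hn⟩ := h
  have h2 : (q 0 : ℚ) = 2 := by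
    unfold q; norm_num [Nat.factorial]
  rw [h2, zsmul_eq_mul, mul_one] at hn
  have h3 : (2 * n : ℤ) = 1 := by
    have : (2 * (n : ℚ)) = 1 := by rw [hn]; norm_num
    exact_mod_cast this
  omega

/-- The abelian group. -/
abbrev C : Type := RC × ℤ

/-- the action of one generator -/
noncomputable def ρa (k : ℕ) : C ≃+ C where
  toFun x := (x.1 - x.2 • r k, x.2)
  invFun x := (x.1 + x.2 • r k, x.2)
  left_inv x := by simp
  right_inv x := by simp
  map_add' x y := by
    ext
    · simp [add_smul]; abel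
    · simp

/-- multiplicative version -/
noncomputable def ρ (k : ℕ) : MulAut (Multiplicative C) := AddEquiv.toMultiplicative (ρa k)

theorem ρ_apply (k : ℕ) (a : RC) (n : ℤ) : ρ k (Multiplicative.ofAdd ((a, n) : C)) =
    Multiplicative.ofAdd ((a - n • r k, n) : C) := rfl

theorem ρ_pow (k : ℕ) (i : ℕ) (a : RC) (n : ℤ) : (ρ k ^ i) (Multiplicative.ofAdd ((a, n) : C)) =
    Multiplicative.ofAdd ((a - n • (i • r k), n) : C) := by
  induction i with
  | zero => simp
  | succ i ih =>
    rw [pow_succ', MulAut.mul_apply, ih, ρ_apply]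
    congr 2
    rw [add_smul, one_smul, smul_add, sub_sub]

theorem ρ_q (k : ℕ) : ρ k ^ q k = 1 := by
  refine MulEquiv.ext (fun x => ?_)
  obtain ⟨a, n⟩ := x
  change (ρ k ^ q k) (Multiplicative.ofAdd ((a, n) : C)) = _
  rw [ρ_pow, q_r, smul_zero, sub_zero]
  rfl

/-- The action. -/
noncomputable def φ : FreeGroup ℕ →* MulAut (Multiplicative C) := FreeGroup.lift ρ

theorem φ_of (k : ℕ) : φ (FreeGroup.of k) = ρ k := FreeGroup.lift_apply_of

/-- The normal part. -/
abbrev N2 : Type := Multiplicative C ⋊[φ] FreeGroup ℕ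

/-- inclusion of C -/
noncomputable abbrev iC : Multiplicative C →* N2 := SemidirectProduct.inl
/-- inclusion of F -/
noncomputable abbrev iF : FreeGroup ℕ →* N2 := SemidirectProduct.inr

theorem conj_iF (g : FreeGroup ℕ) (c : Multiplicative C) : iF g * iC c * (iF g)⁻¹ = iC (φ g c) := by
  rw [SemidirectProduct.inl_aut, map_inv]

theorem end_exists (y : ℕ → N2) (hy : ∀ k c, y k * iC c * (y k)⁻¹ = iC (φ (FreeGroup.of k) c)) :
    ∃ T : N2 →* N2, (∀ c, T (iC c) = iC c) ∧ ∀ k, T (iF (FreeGroup.of k)) = y k := by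
  have h : ∀ g : FreeGroup ℕ, ∀ c, FreeGroup.lift y g * iC c * (FreeGroup.lift y g)⁻¹ =
      iC (φ g c) := by
    intro g
    induction g using FreeGroup.induction_on with
    | C1 => intro c; simp
    | of k => intro c; rw [FreeGroup.lift_apply_of]; exact hy k c
    | inv_of k ih =>
      intro c
      have h1 := ih ((φ (FreeGroup.of k)⁻¹) c)
      rw [← MulAut.mul_apply, ← map_mul, mul_inv_cancel, map_one, MulAut.one_apply] at h1
      rw [← h1, map_inv]
      group
    | mul x z hx hz =>
      intro c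
      rw [map_mul, map_mul, MulAut.mul_apply, ← hx, ← hz]
      group
  refine ⟨SemidirectProduct.lift iC (FreeGroup.lift y) ?_, ?_, ?_⟩
  · intro g
    refine MonoidHom.ext (fun c => ?_)
    exact (h g c).symm
  · intro c
    exact SemidirectProduct.lift_inl _ _ _ _
  · intro k
    rw [SemidirectProduct.lift_inr, FreeGroup.lift_apply_of]

/-- the distinguished element -/
def c0 : Multiplicative C := Multiplicative.ofAdd ((0, 1) : C)

/-- images under T -/
noncomputable def y : ℕ → N2
  | 0 => iC c0 * iF (FreeGroup.of 0)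
  | k + 1 => iF (FreeGroup.of k) ^ q k * iF (FreeGroup.of (k + 1))

/-- images under the inverse of T -/
noncomputable def z : ℕ → N2
  | 0 => iC c0⁻¹ * iF (FreeGroup.of 0)
  | k + 1 => (z k ^ q k)⁻¹ * iF (FreeGroup.of (k + 1))

theorem hy (k : ℕ) (c : Multiplicative C) : y k * iC c * (y k)⁻¹ = iC (φ (FreeGroup.of k) c) := by
  cases k with
  | zero =>
    have h1 : ∀ c', iC c0 * iC c' * (iC c0)⁻¹ = iC c' := by
      intro c'
      rw [← map_mul, ← map_inv, ← map_mul, mul_comm c0 c', mul_inv_cancel_right]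
    rw [← h1 (φ _ c), ← conj_iF]
    simp only [y]
    group
  | succ k =>
    have h1 : ∀ c', (iF (FreeGroup.of k) ^ q k) * iC c' * (iF (FreeGroup.of k) ^ q k)⁻¹ = iC c' := by
      intro c'
      rw [← map_pow, conj_iF, map_pow, φ_of, ρ_q]
      rfl
    rw [← h1 (φ _ c), ← conj_iF]
    simp only [y]
    group

theorem hz (k : ℕ) : ∀ (c : Multiplicative C), z k * iC c * (z k)⁻¹ = iC (φ (FreeGroup.of k) c) := by
  induction k with
  | zero =>
    intro c
    have h1 : ∀ c', iC c0⁻¹ * iC c' * (iC c0⁻¹)⁻¹ = iC c' := by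
      intro c'
      rw [← map_mul, ← map_inv, ← map_mul, mul_comm c0⁻¹ c', mul_inv_cancel_right]
    rw [← h1 (φ _ c), ← conj_iF]
    simp only [z]
    group
  | succ k ih =>
    intro c
    have h0 : ∀ (i : ℕ) (c' : Multiplicative C), z k ^ i * iC c' * (z k ^ i)⁻¹ =
        iC ((ρ k ^ i) c') := by
      intro i
      induction i with
      | zero => intro c'; simp
      | succ i ihi =>
        intro c'
        rw [pow_succ' (ρ k), MulAut.mul_apply, ← φ_of, ← ih, φ_of, ← ihi, pow_succ' (z k)]
        group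
    have h1 : ∀ c', (z k ^ q k)⁻¹ * iC c' * ((z k ^ q k)⁻¹)⁻¹ = iC c' := by
      intro c'
      have h2 := h0 (q k) c'
      rw [ρ_q, MulAut.one_apply] at h2
      conv_lhs => rw [← h2]
      group
    rw [← h1 (φ _ c), ← conj_iF]
    simp only [z]
    group

theorem aut_exists : ∃ T : MulAut N2, (∀ c, T (iC c) = iC c) ∧
    ∀ k, T (iF (FreeGroup.of k)) = y k := by
  obtain ⟨T, hT1, hT2⟩ := end_exists y hy
  obtain ⟨S, hS1, hS2⟩ := end_exists z hz
  have h1 : ∀ k, T (z k) = iF (FreeGroup.of k) := by
    intro k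
    induction k with
    | zero =>
      simp only [z]
      rw [map_mul, hT1, hT2]
      simp only [y]
      rw [map_inv, inv_mul_cancel_left]
    | succ k ih =>
      simp only [z]
      rw [map_mul, map_inv, map_pow, ih, hT2]
      simp only [y]
      rw [inv_mul_cancel_left]
  have h2 : ∀ k, S (y k) = iF (FreeGroup.of k) := by
    intro k
    cases k with
    | zero =>
      simp only [y]
      rw [map_mul, hS1, hS2]
      simp only [z]
      rw [map_inv, mul_inv_cancel_left]
    | succ k =>
      simp only [y]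
      rw [map_mul, map_pow, hS2, hS2]
      simp only [z]
      rw [mul_inv_cancel_left]
  refine ⟨MonoidHom.toMulEquiv T S ?_ ?_, hT1, hT2⟩
  · apply SemidirectProduct.hom_ext
    · refine MonoidHom.ext (fun c => ?_)
      change S (T (iC c)) = iC c
      rw [hT1, hS1]
    · apply FreeGroup.ext_hom
      intro k
      change S (T (iF (FreeGroup.of k))) = iF (FreeGroup.of k)
      rw [hT2, h2]
  · apply SemidirectProduct.hom_ext
    · refine MonoidHom.ext (fun c => ?_)
      change T (S (iC c)) = iC c
      rw [hS1, hT1]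
    · apply FreeGroup.ext_hom
      intro k
      change T (S (iF (FreeGroup.of k))) = iF (FreeGroup.of k)
      rw [hS2, h1]

theorem b0_ne : PresentedGroup.mk R2 (b 0) ≠ 1 := by
  obtain ⟨T, hT1, hT2⟩ := aut_exists
  let θ : Multiplicative ℤ →* MulAut N2 := zpowersHom _ T
  let M := N2 ⋊[θ] Multiplicative ℤ
  let τ : M := SemidirectProduct.inr (Multiplicative.ofAdd 1)
  let iN : N2 →* M := SemidirectProduct.inl
  have hiN : Function.Injective iN := SemidirectProduct.inl_injective
  have hconj : ∀ x : N2, τ * iN x * τ⁻¹ = iN (T x) := by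
    intro x
    have h1 : θ (Multiplicative.ofAdd 1) = T := by
      change T ^ (1 : ℤ) = T
      exact zpow_one T
    have h2 := SemidirectProduct.inl_aut (φ := θ) (Multiplicative.ofAdd 1) x
    rw [h1] at h2
    rw [map_inv] at h2
    exact h2.symm
  let f : Option ℕ → M := fun o => match o with
    | none => τ
    | some k => iN (iF (FreeGroup.of k))
  let ψ : F →* M := FreeGroup.lift f
  have ht : ψ t = τ := FreeGroup.lift_apply_of
  have hu : ∀ k, ψ (u k) = iN (iF (FreeGroup.of k)) := fun k => FreeGroup.lift_apply_of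
  have hrr : ∀ k, ψ (rr k) = 1 := by
    intro k
    unfold rr
    rw [map_mul, map_inv, mul_inv_eq_one, map_mul, map_mul, map_inv, map_mul, map_pow, ht, hu, hu,
      hconj, hT2]
    simp only [y]
    rw [map_mul, map_pow]
  have hm : ψ m = iN (iC c0) := by
    unfold m
    rw [map_commutatorElement, commutatorElement_def, ht, hu, hconj, hT2]
    simp only [y]
    rw [map_mul, mul_inv_cancel_right]
  have hmt : ψ ⁅m, t⁆ = 1 := by
    rw [map_commutatorElement, hm, ht, commutatorElement_eq_one_iff_commute]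
    have h1 := hconj (iC c0)
    rw [hT1, mul_inv_eq_iff_eq_mul] at h1
    exact h1.symm
  have hb : ∀ k, ψ (b k) = iN (iC (Multiplicative.ofAdd ((r k, 0) : C))) := by
    intro k
    unfold b
    rw [map_commutatorElement, hm, hu, ← map_commutatorElement]
    congr 1
    have h1 : ⁅iC c0, iF (FreeGroup.of k)⁆ =
        iC c0 * (iF (FreeGroup.of k) * iC c0⁻¹ * (iF (FreeGroup.of k))⁻¹) := by
      rw [commutatorElement_def, map_inv]
      group
    rw [h1, conj_iF, ← map_mul, φ_of, map_inv]
    congr 1
    unfold c0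
    rw [ρ_apply, ← div_eq_mul_inv, ← ofAdd_sub]
    congr 1
    refine Prod.ext ?_ ?_
    · simp
    · simp
  have hcen : ∀ (a : RC) (g : F), Commute (iN (iC (Multiplicative.ofAdd ((a, 0) : C)))) (ψ g) := by
    intro a g
    induction g using FreeGroup.induction_on with
    | C1 => rw [map_one]; exact Commute.one_right _
    | of o =>
      cases o with
      | none =>
        change Commute _ (ψ t)
        rw [ht]
        have h1 := hconj (iC (Multiplicative.ofAdd ((a, 0) : C)))
        rw [hT1, mul_inv_eq_iff_eq_mul] at h1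
        exact h1.symm
      | some k =>
        change Commute _ (ψ (u k))
        rw [hu]
        have h1 := conj_iF (FreeGroup.of k) (Multiplicative.ofAdd ((a, 0) : C))
        rw [φ_of, ρ_apply, zero_smul, sub_zero, mul_inv_eq_iff_eq_mul] at h1
        have h2 : Commute (iC (Multiplicative.ofAdd ((a, 0) : C))) (iF (FreeGroup.of k)) := h1.symm
        exact h2.map iN
    | inv_of k ih => rw [map_inv]; exact ih.inv_right
    | mul x y hx hy => rw [map_mul]; exact hx.mul_right hy
  have hrel : ∀ s ∈ R2, ψ s = 1 := by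
    rintro s (⟨k, rfl⟩ | rfl | ⟨⟨k, g⟩, rfl⟩ | ⟨k, rfl⟩)
    · exact hrr k
    · exact hmt
    · simp only
      rw [map_commutatorElement, hb, commutatorElement_eq_one_iff_commute]
      exact hcen _ _
    · simp only
      rw [map_mul, map_inv, mul_inv_eq_one, map_pow, hb, hb, ← map_pow, ← map_pow, ← ofAdd_nsmul]
      congr 3
      change ((k + 3) • r (k + 1), (k + 3) • (0 : ℤ)) = ((r k, 0) : C)
      rw [r_succ, smul_zero]
  intro h
  rw [PresentedGroup.mk_eq_one_iff] at h
  have h1 : Subgroup.normalClosure R2 ≤ ψ.ker := by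
    apply Subgroup.normalClosure_le_normal
    intro s hs
    exact hrel s hs
  have h2 : ψ (b 0) = 1 := h1 h
  rw [hb, ← map_one iN] at h2
  have h3 := hiN h2
  rw [← map_one iC] at h3
  have h4 := SemidirectProduct.inl_injective h3
  have h5 : ((r 0, 0) : C) = (0, 0) := h4
  exact r_zero (congrArg Prod.fst h5)

end Pool.Agent.Helper642.ModelM
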