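import Mathlib
import Pool.Agent.Helper642.ModelM

set_option autoImplicit false

open scoped commutatorElement IsMulCommutative

namespace Pool.Agent.Helper642.C1

open PermP (q)
open LemN (RC)
open Pres

/-- The group G. -/
abbrev G : Type := PresentedGroup R0

/-- stable letter in G -/
def T0 : G := PresentedGroup.mk R0 t
/-- generators in G -/
def U0 (k : ℕ) : G := PresentedGroup.mk R0 (u k)

theorem rel_zero : T0 * U0 0 * T0⁻¹ = U0 0 := by
  have hm : PresentedGroup.mk R0 m = 1 := PresentedGroup.one_of_mem (Or.inl rfl)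
  unfold m at hm
  rw [map_commutatorElement, commutatorElement_eq_one_iff_commute] at hm
  rw [mul_inv_eq_iff_eq_mul]
  exact hm

theorem rel_succ (k : ℕ) : T0 * U0 (k + 1) * T0⁻¹ = U0 k ^ q k * U0 (k + 1) := by
  have hm : PresentedGroup.mk R0 (rr k) = 1 := PresentedGroup.one_of_mem (Or.inr ⟨k, rfl⟩)
  unfold rr at hm
  rw [map_mul, map_inv, mul_inv_eq_one, map_mul, map_mul, map_inv, map_mul, map_pow] at hm
  exact hm

/-- The subgroup generated by the U's. -/
def RG : Subgroup G := (FreeGroup.lift U0).range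

theorem U0_mem (k : ℕ) : U0 k ∈ RG := ⟨FreeGroup.of k, FreeGroup.lift_apply_of⟩

theorem conj_mem (a : G) (ha : ∀ k, a * U0 k * a⁻¹ ∈ RG) (x : G) (hx : x ∈ RG) :
    a * x * a⁻¹ ∈ RG := by
  obtain ⟨w, rfl⟩ := hx
  induction w using FreeGroup.induction_on with
  | C1 => simp only [map_one, mul_one, mul_inv_cancel]; exact one_mem _
  | of k => rw [FreeGroup.lift_apply_of]; exact ha k
  | inv_of k ih =>
    have := inv_mem ih
    rw [map_inv]
    convert this using 1
    group
  | mul x y hx hy =>
    have := mul_mem hx hy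
    rw [map_mul]
    convert this using 1
    group

theorem conjT (x : G) (hx : x ∈ RG) : T0 * x * T0⁻¹ ∈ RG := by
  apply conj_mem T0 _ x hx
  intro k
  cases k with
  | zero => rw [rel_zero]; exact U0_mem 0
  | succ k => rw [rel_succ]; exact mul_mem (pow_mem (U0_mem k) _) (U0_mem _)

theorem conjTi (x : G) (hx : x ∈ RG) : T0⁻¹ * x * T0 ∈ RG := by
  have h := conj_mem T0⁻¹ (x := x) (ha := ?_) (hx := hx)
  · rw [inv_inv] at h; exact h
  · intro k
    rw [inv_inv]
    induction k with
    | zero =>
      have h0 : T0⁻¹ * U0 0 * T0 = U0 0 := by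
        conv_lhs => rw [← rel_zero]
        group
      rw [h0]
      exact U0_mem 0
    | succ k ih =>
      have h1 : T0⁻¹ * U0 (k + 1) * T0 = ((T0⁻¹ * U0 k * T0) ^ q k)⁻¹ * U0 (k + 1) := by
        have h2 := rel_succ k
        have h3 : (T0⁻¹ * U0 k * T0) ^ q k = T0⁻¹ * U0 k ^ q k * T0 := by
          have := conj_pow (a := T0⁻¹) (b := U0 k) (i := q k)
          rw [inv_inv] at this
          exact this
        rw [h3]
        have h4 : U0 (k + 1) = T0⁻¹ * (U0 k ^ q k * U0 (k + 1)) * T0 := by
          rw [← h2]; group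
        conv_rhs => rw [h4]
        group
      rw [h1]
      exact mul_mem (inv_mem (pow_mem ih _)) (U0_mem _)

theorem decomp (y : G) : ∃ n : ℤ, y * T0 ^ n ∈ RG := by
  have hy : y ∈ Subgroup.closure (Set.range (PresentedGroup.of : Option ℕ → G)) := by
    rw [PresentedGroup.closure_range_of]; exact Subgroup.mem_top y
  induction hy using Subgroup.closure_induction_left with
  | one => exact ⟨0, by simp⟩
  | mul_left x hx y hy ih =>
    obtain ⟨n, hn⟩ := ih
    obtain ⟨o, rfl⟩ := hx
    cases o with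
    | none =>
      refine ⟨n - 1, ?_⟩
      have := conjT _ hn
      change T0 * y * T0 ^ (n - 1) ∈ RG
      rw [zpow_sub_one]
      simpa only [mul_assoc] using this
    | some k =>
      refine ⟨n, ?_⟩
      change U0 k * y * T0 ^ n ∈ RG
      rw [mul_assoc]
      exact mul_mem (U0_mem k) hn
  | inv_mul_cancel x hx y hy ih =>
    obtain ⟨n, hn⟩ := ih
    obtain ⟨o, rfl⟩ := hx
    cases o with
    | none =>
      refine ⟨n + 1, ?_⟩
      have := conjTi _ hn
      change T0⁻¹ * y * T0 ^ (n + 1) ∈ RG
      rw [zpow_add_one]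
      simpa only [mul_assoc] using this
    | some k =>
      refine ⟨n, ?_⟩
      change (U0 k)⁻¹ * y * T0 ^ n ∈ RG
      rw [mul_assoc]
      exact mul_mem (inv_mem (U0_mem k)) hn

theorem homG (H : Type) [Group H] (T : H) (U : ℕ → H) (h0 : T * U 0 * T⁻¹ = U 0)
    (h : ∀ k, T * U (k + 1) * T⁻¹ = U k ^ q k * U (k + 1)) :
    ∃ φ : G →* H, φ T0 = T ∧ ∀ k, φ (U0 k) = U k := by
  let f : Option ℕ → H := fun o => match o with
    | none => T
    | some k => U k
  have ht : FreeGroup.lift f t = T := FreeGroup.lift_apply_of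
  have hu : ∀ k, FreeGroup.lift f (u k) = U k := fun k => FreeGroup.lift_apply_of
  have hf : ∀ r ∈ R0, FreeGroup.lift f r = 1 := by
    rintro r (rfl | ⟨k, rfl⟩)
    · unfold m
      rw [map_commutatorElement, ht, hu, commutatorElement_eq_one_iff_commute]
      rw [mul_inv_eq_iff_eq_mul] at h0
      exact h0
    · unfold rr
      rw [map_mul, map_inv, mul_inv_eq_one, map_mul, map_mul, map_inv, map_mul, map_pow, ht, hu,
        hu, h]
  refine ⟨PresentedGroup.toGroup hf, ?_, ?_⟩
  · exact PresentedGroup.toGroup.of hf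
  · intro k
    exact PresentedGroup.toGroup.of hf

theorem detectG (y : G) (hy : y ≠ 1) : ∃ (H : Type) (_ : Group H) (φ : G →* H),
    Group.IsNilpotent H ∧ φ y ≠ 1 := by
  obtain ⟨n, hn⟩ := decomp y
  by_cases h0 : n = 0
  · subst h0
    rw [zpow_zero, mul_one] at hn
    obtain ⟨x, rfl⟩ := hn
    have hx : x ≠ 1 := by
      rintro rfl
      exact hy (map_one _)
    obtain ⟨H, _, hH, T, U, h1, h2, h3⟩ := PermP.detect x hx
    obtain ⟨φ, -, hφ⟩ := homG H T U h1 h2
    refine ⟨H, inferInstance, φ, hH, ?_⟩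
    have h4 : φ.comp (FreeGroup.lift U0) = FreeGroup.lift U := by
      apply FreeGroup.ext_hom
      intro k
      rw [MonoidHom.comp_apply, FreeGroup.lift_apply_of, FreeGroup.lift_apply_of, hφ]
    rw [← MonoidHom.comp_apply, h4]
    exact h3
  · obtain ⟨φ, hφ1, hφ2⟩ := homG (Multiplicative ℤ) (Multiplicative.ofAdd 1) (fun _ => 1)
      (by simp) (by simp)
    refine ⟨Multiplicative ℤ, inferInstance, φ, inferInstance, ?_⟩
    intro h
    obtain ⟨x, hx⟩ := hn
    have h4 : φ.comp (FreeGroup.lift U0) = 1 := by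
      apply FreeGroup.ext_hom
      intro k
      rw [MonoidHom.comp_apply, FreeGroup.lift_apply_of, hφ2]
      rfl
    have h5 : φ (y * T0 ^ n) = 1 := by
      rw [← hx, ← MonoidHom.comp_apply, h4]; rfl
    rw [map_mul, h, one_mul, map_zpow, hφ1, ← ofAdd_zsmul] at h5
    apply h0
    have := congrArg Multiplicative.toAdd h5
    simpa using this

theorem detectKer (E : Type) [Group E] (f : E →* G) (hf : Function.Surjective f)
    (hc : f.ker ≤ Subgroup.center E) (g : E) (hg : g ≠ 1) (hfg : f g = 1) :
    ∃ (H : Type) (_ : Group H) (φ : E →* H), Group.IsNilpotent H ∧ φ g ≠ 1 := by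
  -- the character
  let gA : Additive (Subgroup.center E) := Additive.ofMul ⟨g, hc hfg⟩
  have hgA : gA ≠ 0 := by
    intro h
    apply hg
    have h1 : (⟨g, hc hfg⟩ : Subgroup.center E) = 1 := h
    exact congrArg Subtype.val h1
  obtain ⟨χ, hχ⟩ := CharacterModule.exists_character_apply_ne_zero_of_ne_zero
    (A := Additive (Subgroup.center E)) (a := gA) hgA
  -- the lift
  choose s hs using hf
  let lam : F →* E := FreeGroup.lift (fun o => s (PresentedGroup.of o))
  have hlam : ∀ w, f (lam w) = PresentedGroup.mk R0 w := by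
    intro w
    have : f.comp lam = PresentedGroup.mk R0 := by
      apply FreeGroup.ext_hom
      intro o
      rw [MonoidHom.comp_apply, FreeGroup.lift_apply_of, hs]
      rfl
    rw [← MonoidHom.comp_apply, this]
  have hlamc : ∀ w, w ∈ Subgroup.normalClosure R0 → lam w ∈ f.ker := by
    intro w hw
    rw [MonoidHom.mem_ker, hlam, PresentedGroup.mk_eq_one_iff]
    exact hw
  let cm : Subgroup.center E →* Multiplicative RC :=
    { toFun := fun a => Multiplicative.ofAdd (χ (Additive.ofMul a))
      map_one' := by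
        change Multiplicative.ofAdd (χ 0) = 1
        rw [map_zero]; rfl
      map_mul' := fun a b => by
        change Multiplicative.ofAdd (χ (Additive.ofMul a + Additive.ofMul b)) = _
        rw [map_add]; rfl }
  have hm0 : m ∈ Subgroup.normalClosure R0 := Subgroup.subset_normalClosure (Or.inl rfl)
  have hrr0 : ∀ k, rr k ∈ Subgroup.normalClosure R0 := fun k =>
    Subgroup.subset_normalClosure (Or.inr ⟨k, rfl⟩)
  let z : ℕ → RC := fun k => match k with
    | 0 => (cm ⟨lam m, hc (hlamc _ hm0)⟩).toAdd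
    | k + 1 => (cm ⟨lam (rr k), hc (hlamc _ (hrr0 k))⟩).toAdd
  obtain ⟨H, _, hH, ζ, T, U, hζ, hζc, hT0, hTs⟩ := LemN.exists_model z
  let fH : Option ℕ → H := fun o => match o with
    | none => T
    | some k => U k
  let Lam : F →* H := FreeGroup.lift fH
  have ht : Lam t = T := FreeGroup.lift_apply_of
  have hu : ∀ k, Lam (u k) = U k := fun k => FreeGroup.lift_apply_of
  have hcomm : ∀ (w : F) (a : f.ker), Commute (lam w) (a : E) := by
    intro w a
    exact (Subgroup.mem_center_iff.1 (hc a.2) (lam w))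
  let S : Subgroup F :=
    { carrier := {w | ∃ h : lam w ∈ Subgroup.center E, Lam w = ζ (cm ⟨lam w, h⟩)}
      mul_mem' := by
        rintro a b ⟨ha, ha2⟩ ⟨hb, hb2⟩
        refine ⟨by rw [map_mul]; exact mul_mem ha hb, ?_⟩
        rw [map_mul, ha2, hb2, ← map_mul, ← map_mul]
        congr 2
        apply Subtype.ext
        exact (map_mul lam a b).symm
      one_mem' := by
        refine ⟨by rw [map_one]; exact one_mem _, ?_⟩
        have : (⟨lam 1, by rw [map_one]; exact one_mem _⟩ : Subgroup.center E) = 1 := Subtype.ext (map_one lam)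
        rw [this, map_one, map_one, map_one]
      inv_mem' := by
        rintro a ⟨ha, ha2⟩
        refine ⟨by rw [map_inv]; exact inv_mem ha, ?_⟩
        rw [map_inv, ha2, ← map_inv, ← map_inv]
        congr 2
        apply Subtype.ext
        exact (map_inv lam a).symm }
  have hSn : S.Normal := by
    constructor
    rintro a ⟨ha, ha2⟩ w
    have h1 : lam (w * a * w⁻¹) = lam a := by
      rw [map_mul, map_mul, map_inv, (Subgroup.mem_center_iff.1 ha (lam w)), mul_inv_cancel_right]
    refine ⟨by rw [h1]; exact ha, ?_⟩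
    have h2 : (⟨lam (w * a * w⁻¹), by rw [h1]; exact ha⟩ : Subgroup.center E) = ⟨lam a, ha⟩ := Subtype.ext h1
    rw [h2, map_mul, map_mul, map_inv, ha2, ← (hζc _ (Lam w)).eq, mul_inv_cancel_right]
  have hS : Subgroup.normalClosure R0 ≤ S := by
    apply Subgroup.normalClosure_le_normal
    rintro r (rfl | ⟨k, rfl⟩)
    · refine ⟨hc (hlamc _ hm0), ?_⟩
      have h1 : Lam m = ζ (Multiplicative.ofAdd (z 0)) := by
        unfold m
        rw [map_commutatorElement, commutatorElement_def, ht, hu, hT0, mul_inv_cancel_right]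
      exact h1
    · refine ⟨hc (hlamc _ (hrr0 k)), ?_⟩
      have h1 : Lam (rr k) = ζ (Multiplicative.ofAdd (z (k + 1))) := by
        unfold rr
        rw [map_mul, map_inv, map_mul, map_mul, map_inv, map_mul, map_pow, ht, hu, hu, hTs,
          mul_inv_cancel_right]
      exact h1
  let incl : f.ker →* Subgroup.center E := Subgroup.inclusion hc
  let Pi' : F × f.ker →* E := lam.noncommCoprod f.ker.subtype hcomm
  let Psi : F × f.ker →* H := Lam.noncommCoprod ((ζ.comp cm).comp incl)
    (fun w a => (hζc _ _).symm)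
  have hPi : Function.Surjective Pi' := by
    intro e
    obtain ⟨w, hw⟩ := PresentedGroup.mk_surjective R0 (f e)
    have h1 : (lam w)⁻¹ * e ∈ f.ker := by
      rw [MonoidHom.mem_ker, map_mul, map_inv, hlam, hw, inv_mul_cancel]
    refine ⟨(w, ⟨_, h1⟩), ?_⟩
    rw [MonoidHom.noncommCoprod_apply]
    exact mul_inv_cancel_left _ _
  have hker : Pi'.ker ≤ Psi.ker := by
    rintro ⟨w, a⟩ h
    rw [MonoidHom.mem_ker, MonoidHom.noncommCoprod_apply] at h
    simp only [Subgroup.subtype_apply] at h
    have h1 : f (lam w) = 1 := by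
      have := congrArg f h
      rw [map_mul, map_one, MonoidHom.mem_ker.1 a.2, mul_one] at this
      exact this
    rw [hlam, PresentedGroup.mk_eq_one_iff] at h1
    obtain ⟨h2, h3⟩ := hS h1
    rw [MonoidHom.mem_ker, MonoidHom.noncommCoprod_apply]
    simp only [MonoidHom.comp_apply]
    rw [h3, ← map_mul, ← map_mul]
    have h4 : (⟨lam w, h2⟩ : Subgroup.center E) * incl a = 1 := by
      apply Subtype.ext
      exact h
    rw [h4, map_one, map_one]
  let φ : E →* H := Pi'.liftOfSurjective hPi ⟨Psi, hker⟩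
  have hφ : ∀ x, φ (Pi' x) = Psi x := fun x =>
    MonoidHom.liftOfRightInverse_comp_apply _ _ _ ⟨Psi, hker⟩ x
  refine ⟨H, inferInstance, φ, hH, ?_⟩
  intro h
  have h1 : Pi' (1, ⟨g, hfg⟩) = g := by
    rw [MonoidHom.noncommCoprod_apply]
    simp
  rw [← h1, hφ, MonoidHom.noncommCoprod_apply] at h
  simp only [map_one, one_mul, MonoidHom.comp_apply] at h
  rw [← map_one ζ] at h
  have h2 := hζ h
  apply hχ
  exact h2

end Pool.Agent.Helper642.C1
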